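import Mathlib

/-!
# Functions holomorphic in the first and antiholomorphic in the second variable
-/

set_option autoImplicit false
set_option linter.unusedSectionVars false

open Set Metric Filter Topology

namespace Pool.Agent.X192.HR

section U

variable {E : Type*} [NormedAddCommGroup E] [NormedSpace ℂ E] [StarAddMonoid E] [StarModule ℂ E]
  [NormedStarGroup E] [NormedSpace ℝ E] [IsScalarTower ℝ ℂ E]

/-- `F` is holomorphic in the first and antiholomorphic in the second variable, jointly, on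
`Ω × Ω`. -/
def SesAn (F : E → E → ℂ) (Ω : Set E) : Prop :=
  AnalyticOnNhd ℂ (fun v : E × E => F v.1 (star v.2)) {v | v.1 ∈ Ω ∧ star v.2 ∈ Ω}

theorem SesAn.mono {F : E → E → ℂ} {Ω Ω' : Set E} (h : SesAn F Ω) (h' : Ω' ⊆ Ω) : SesAn F Ω' :=
  fun v hv => h v ⟨h' hv.1, h' hv.2⟩

theorem SesAn.eq_zero {F : E → E → ℂ} {Ω : Set E} (hF : SesAn F Ω) (ho : IsOpen Ω)
    (hc : Convex ℝ Ω) (h0 : ∀ z ∈ Ω, F z z = 0) {z w : E} (hz : z ∈ Ω) (hw : w ∈ Ω) :
    F z w = 0 := by
  set U0 : E := (1 / 2 : ℂ) • (z + w) with hU0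
  set W0 : E := (-Complex.I / 2 : ℂ) • (z - w) with hW0
  have hstar : ∀ c : ℂ, star (star U0 + c • star W0) = U0 + (star c) • W0 := by
    intro c
    rw [star_add, star_star, star_smul, star_star]
  let D : Set ℂ := {c | U0 + c • W0 ∈ Ω ∧ U0 + (star c) • W0 ∈ Ω}
  let γ : ℂ → E × E := fun c => (U0 + c • W0, star U0 + c • star W0)
  have hγan : AnalyticOnNhd ℂ γ univ := by
    intro c _
    exact (analyticAt_const.add (analyticAt_id.smul analyticAt_const)).prod
      (analyticAt_const.add (analyticAt_id.smul analyticAt_const))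
  have hγD : ∀ c ∈ D, γ c ∈ {v : E × E | v.1 ∈ Ω ∧ star v.2 ∈ Ω} := by
    intro c hc
    refine ⟨hc.1, ?_⟩
    show star (star U0 + c • star W0) ∈ Ω
    rw [hstar]
    exact hc.2
  have hg : AnalyticOnNhd ℂ (fun c => (fun v : E × E => F v.1 (star v.2)) (γ c)) D := by
    intro c hcD
    exact (hF (γ c) (hγD c hcD)).comp (hγan c trivial)
  have hDo : IsOpen D := by
    apply IsOpen.inter
    · exact ho.preimage (by fun_prop)
    · exact ho.preimage (by fun_prop)
  have hDc : Convex ℝ D := by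
    intro x hx y hy a b ha hb hab
    have e : ∀ (x' y' : ℂ), U0 + (a • x' + b • y') • W0 = a • (U0 + x' • W0) + b • (U0 + y' • W0) := by
      intro x' y'
      rw [smul_add, smul_add, add_smul, smul_assoc, smul_assoc]
      have : U0 = a • U0 + b • U0 := by rw [← add_smul, hab, one_smul]
      nth_rewrite 1 [this]
      abel
    refine ⟨?_, ?_⟩
    · show U0 + (a • x + b • y) • W0 ∈ Ω
      rw [e]
      exact hc hx.1 hy.1 ha hb hab
    · show U0 + (star (a • x + b • y)) • W0 ∈ Ω
      rw [star_add, star_smul, star_smul, star_trivial a, star_trivial b, e]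
      exact hc hx.2 hy.2 ha hb hab
  have h0D : (0 : ℂ) ∈ D := by
    have h1 : U0 ∈ Ω := by
      have h2 : U0 = (1 / 2 : ℝ) • z + (1 / 2 : ℝ) • w := by
        rw [hU0, smul_add]
        have e : ∀ y : E, (1 / 2 : ℂ) • y = (1 / 2 : ℝ) • y := by
          intro y
          rw [← smul_one_smul ℂ (1 / 2 : ℝ) y]
          congr 1
          simp [Complex.real_smul]
        rw [e, e]
      rw [h2]
      exact hc hz hw (by norm_num) (by norm_num) (by norm_num)
    refine ⟨?_, ?_⟩
    · simpa using h1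
    · simpa using h1
  have hID : Complex.I ∈ D ∧ U0 + Complex.I • W0 = z ∧ U0 + (star Complex.I) • W0 = w := by
    have e1 : U0 + Complex.I • W0 = z := by
      rw [hU0, hW0, smul_smul]
      have : Complex.I * (-Complex.I / 2) = 1 / 2 := by
        rw [mul_div_assoc', mul_neg, Complex.I_mul_I, neg_neg]
      rw [this, ← smul_add]
      have : z + w + (z - w) = (2 : ℂ) • z := by rw [two_smul]; abel
      rw [this, smul_smul]
      norm_num
    have e2 : U0 + (star Complex.I) • W0 = w := by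
      rw [hU0, hW0, smul_smul]
      have : star Complex.I * (-Complex.I / 2) = -(1 / 2) := by
        have : star Complex.I = -Complex.I := Complex.conj_I
        rw [this, mul_div_assoc', neg_mul_neg, Complex.I_mul_I]
        ring
      rw [this, neg_smul, ← sub_eq_add_neg, ← smul_sub]
      have : z + w - (z - w) = (2 : ℂ) • w := by rw [two_smul]; abel
      rw [this, smul_smul]
      norm_num
    exact ⟨⟨by rw [e1]; exact hz, by rw [e2]; exact hw⟩, e1, e2⟩
  have hfreq : ∃ᶠ c in 𝓝[≠] (0 : ℂ), (fun c => (fun v : E × E => F v.1 (star v.2)) (γ c)) c = 0 := by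
    -- real points
    have h1 : ∀ᶠ t : ℝ in 𝓝[≠] (0 : ℝ), (t : ℂ) ∈ D := by
      have h2 : ∀ᶠ t : ℝ in 𝓝 (0 : ℝ), (t : ℂ) ∈ D := by
        have h3 : Continuous fun t : ℝ => (t : ℂ) := Complex.continuous_ofReal
        exact h3.continuousAt.preimage_mem_nhds (by
          rw [Complex.ofReal_zero]
          exact hDo.mem_nhds h0D)
      exact h2.filter_mono nhdsWithin_le_nhds
    have h2 : Tendsto (fun t : ℝ => (t : ℂ)) (𝓝[≠] (0 : ℝ)) (𝓝[≠] (0 : ℂ)) := by
      rw [tendsto_nhdsWithin_iff]
      refine ⟨?_, ?_⟩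
      · have h3 : Tendsto (fun t : ℝ => (t : ℂ)) (𝓝 (0 : ℝ)) (𝓝 ((0 : ℝ) : ℂ)) :=
          Complex.continuous_ofReal.tendsto 0
        rw [Complex.ofReal_zero] at h3
        exact h3.mono_left nhdsWithin_le_nhds
      · filter_upwards [self_mem_nhdsWithin] with t ht
        simpa using ht
    apply h2.frequently
    apply Eventually.frequently
    filter_upwards [h1] with t ht
    show F (U0 + (t : ℂ) • W0) (star (star U0 + (t : ℂ) • star W0)) = 0
    rw [hstar]
    have : star (t : ℂ) = t := Complex.conj_ofReal t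
    rw [this]
    exact h0 _ ht.1
  have hzero := hg.eqOn_zero_of_preconnected_of_frequently_eq_zero hDc.isPreconnected h0D hfreq
  have h1 := hzero hID.1
  have h2 : F (U0 + Complex.I • W0) (star (star U0 + Complex.I • star W0)) = 0 := h1
  rwa [hstar, hID.2.1, hID.2.2] at h2

theorem SesAn.sub {F G : E → E → ℂ} {Ω : Set E} (hF : SesAn F Ω) (hG : SesAn G Ω) :
    SesAn (fun z w => F z w - G z w) Ω :=
  fun v hv => (hF v hv).sub (hG v hv)

theorem SesAn.eq_of_diag {F G : E → E → ℂ} {Ω : Set E} (hF : SesAn F Ω) (hG : SesAn G Ω)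
    (ho : IsOpen Ω) (hc : Convex ℝ Ω) (h0 : ∀ z ∈ Ω, F z z = G z z) {z w : E} (hz : z ∈ Ω)
    (hw : w ∈ Ω) : F z w = G z w := by
  have := (hF.sub hG).eq_zero ho hc (fun z hz => sub_eq_zero.mpr (h0 z hz)) hz hw
  exact sub_eq_zero.mp this

end U

end Pool.Agent.X192.HR
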