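import Mathlib
import Pool.Agent.X192.HR.A1

/-!
# Local polarization of real-analytic functions on `ℂⁿ`
-/

set_option autoImplicit false

open Set Metric Filter Topology
open scoped ENNReal NNReal

namespace Pool.Agent.X192.HR

variable {n : ℕ}

/-- real basis vectors of `ℂⁿ` -/
noncomputable def bv (a : Fin n × Bool) : Fin n → ℂ :=
  Pi.single a.1 (if a.2 then Complex.I else 1)

theorem norm_bv_le (a : Fin n × Bool) : ‖bv a‖ ≤ 1 := by
  unfold bv
  rw [Pi.norm_single]
  split_ifs <;> simp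

/-- real coordinates -/
noncomputable def rc (a : Fin n × Bool) (h : Fin n → ℂ) : ℝ := if a.2 then (h a.1).im else (h a.1).re

theorem sum_rc (h : Fin n → ℂ) : ∑ a : Fin n × Bool, rc a h • bv a = h := by
  rw [Fintype.sum_prod_type]
  ext j
  rw [Finset.sum_apply, Finset.sum_eq_single j]
  · rw [Fintype.sum_bool]
    simp only [rc, bv, if_true, Bool.false_eq_true, if_false, Pi.add_apply, Pi.smul_apply,
      Pi.single_eq_same, Complex.real_smul, mul_one]
    rw [add_comm]
    exact Complex.re_add_im (h j)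
  · intro i _ hij
    rw [Fintype.sum_bool]
    simp only [rc, bv, Pi.add_apply, Pi.smul_apply, Pi.single_eq_of_ne hij.symm, smul_zero,
      add_zero]
  · intro hh; exact absurd (Finset.mem_univ _) hh

/-- complexified coordinates on `ℂⁿ × ℂⁿ` -/
noncomputable def cc (a : Fin n × Bool) : ((Fin n → ℂ) × (Fin n → ℂ)) →L[ℂ] ℂ :=
  if a.2 then
    (-Complex.I / 2 : ℂ) • ((ContinuousLinearMap.proj a.1).comp (ContinuousLinearMap.fst ℂ _ _) -
      (ContinuousLinearMap.proj a.1).comp (ContinuousLinearMap.snd ℂ _ _))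
  else
    (1 / 2 : ℂ) • ((ContinuousLinearMap.proj a.1).comp (ContinuousLinearMap.fst ℂ _ _) +
      (ContinuousLinearMap.proj a.1).comp (ContinuousLinearMap.snd ℂ _ _))

theorem norm_cc_le (a : Fin n × Bool) : ‖cc a‖ ≤ 1 := by
  apply ContinuousLinearMap.opNorm_le_bound _ zero_le_one
  intro v
  have h1 : ‖v.1 a.1‖ ≤ ‖v‖ := (norm_le_pi_norm v.1 a.1).trans (norm_fst_le v)
  have h2 : ‖v.2 a.1‖ ≤ ‖v‖ := (norm_le_pi_norm v.2 a.1).trans (norm_snd_le v)
  rw [one_mul]
  unfold cc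
  split_ifs
  · show ‖(-Complex.I / 2 : ℂ) * (v.1 a.1 - v.2 a.1)‖ ≤ ‖v‖
    rw [norm_mul]
    have : ‖(-Complex.I / 2 : ℂ)‖ = 1 / 2 := by simp
    rw [this]
    have := norm_sub_le (v.1 a.1) (v.2 a.1)
    linarith
  · show ‖(1 / 2 : ℂ) * (v.1 a.1 + v.2 a.1)‖ ≤ ‖v‖
    rw [norm_mul]
    have : ‖(1 / 2 : ℂ)‖ = 1 / 2 := by simp
    rw [this]
    have := norm_add_le (v.1 a.1) (v.2 a.1)
    linarith

theorem cc_apply (a : Fin n × Bool) (h : Fin n → ℂ) : cc a (h, star h) = (rc a h : ℂ) := by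
  unfold cc rc
  split_ifs
  · show (-Complex.I / 2 : ℂ) * (h a.1 - star (h a.1)) = _
    have : star (h a.1) = (starRingEnd ℂ) (h a.1) := rfl
    rw [this, Complex.sub_conj]
    have h2 : -Complex.I / 2 * (((2 * (h a.1).im : ℝ) : ℂ) * Complex.I) =
        -(Complex.I * Complex.I) * (h a.1).im := by
      push_cast
      ring
    rw [h2, Complex.I_mul_I]
    ring
  · show (1 / 2 : ℂ) * (h a.1 + star (h a.1)) = _
    have : star (h a.1) = (starRingEnd ℂ) (h a.1) := rfl
    rw [this, Complex.add_conj]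
    push_cast
    ring

/-- the complexified power series -/
noncomputable def cq (q : FormalMultilinearSeries ℝ (Fin n → ℂ) ℝ) :
    FormalMultilinearSeries ℂ ((Fin n → ℂ) × (Fin n → ℂ)) ℂ := fun m =>
  ∑ i : Fin m → Fin n × Bool, ((q m fun l => bv (i l) : ℝ) : ℂ) •
    (ContinuousMultilinearMap.mkPiAlgebraFin ℂ m ℂ).compContinuousLinearMap fun l => cc (i l)

theorem cq_apply (q : FormalMultilinearSeries ℝ (Fin n → ℂ) ℝ) (m : ℕ) (h : Fin n → ℂ) :
    cq q m (fun _ => (h, star h)) = ((q m fun _ => h : ℝ) : ℂ) := by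
  have h1 : (q m fun _ => h) = ∑ i : Fin m → Fin n × Bool,
      (∏ l, rc (i l) h) * q m fun l => bv (i l) := by
    conv_lhs => rw [← sum_rc h]
    rw [ContinuousMultilinearMap.map_sum]
    refine Finset.sum_congr rfl fun i _ => ?_
    rw [ContinuousMultilinearMap.map_smul_univ, smul_eq_mul]
  rw [h1]
  unfold cq
  rw [ContinuousMultilinearMap.sum_apply]
  push_cast
  refine Finset.sum_congr rfl fun i _ => ?_
  show ((q m fun l => bv (i l) : ℝ) : ℂ) *
    ((ContinuousMultilinearMap.mkPiAlgebraFin ℂ m ℂ).compContinuousLinearMap fun l => cc (i l))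
      (fun _ => (h, star h)) = _
  rw [ContinuousMultilinearMap.compContinuousLinearMap_apply,
    ContinuousMultilinearMap.mkPiAlgebraFin_apply, List.prod_ofFn, mul_comm]
  simp only [cc_apply]

theorem norm_cq_le (q : FormalMultilinearSeries ℝ (Fin n → ℂ) ℝ) (m : ℕ) :
    ‖cq q m‖ ≤ (2 * n : ℝ) ^ m * ‖q m‖ := by
  unfold cq
  refine (norm_sum_le _ _).trans ?_
  have h1 : ∀ i ∈ (Finset.univ : Finset (Fin m → Fin n × Bool)),
      ‖((q m fun l => bv (i l) : ℝ) : ℂ) •
        (ContinuousMultilinearMap.mkPiAlgebraFin ℂ m ℂ).compContinuousLinearMap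
          fun l => cc (i l)‖ ≤ ‖q m‖ := by
    intro i _
    rw [norm_smul]
    have h2 : ‖((q m fun l => bv (i l) : ℝ) : ℂ)‖ ≤ ‖q m‖ := by
      rw [Complex.norm_real]
      refine ((q m).le_opNorm _).trans ?_
      have : ∏ l, ‖bv (i l)‖ ≤ 1 := Finset.prod_le_one (fun _ _ => norm_nonneg _)
        fun l _ => norm_bv_le _
      exact mul_le_of_le_one_right (norm_nonneg _) this
    have h3 : ‖(ContinuousMultilinearMap.mkPiAlgebraFin ℂ m ℂ).compContinuousLinearMap
          fun l => cc (i l)‖ ≤ 1 := by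
      refine (ContinuousMultilinearMap.norm_compContinuousLinearMap_le _ _).trans ?_
      rw [ContinuousMultilinearMap.norm_mkPiAlgebraFin, one_mul]
      exact Finset.prod_le_one (fun _ _ => norm_nonneg _) fun l _ => norm_cc_le _
    calc _ ≤ ‖q m‖ * 1 := mul_le_mul h2 h3 (norm_nonneg _) (norm_nonneg _)
      _ = _ := mul_one _
  refine (Finset.sum_le_sum h1).trans ?_
  rw [Finset.sum_const, Finset.card_univ, Fintype.card_fun, Fintype.card_prod, Fintype.card_fin,
    Fintype.card_bool, Fintype.card_fin, nsmul_eq_mul]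
  push_cast
  rw [mul_comm (n : ℝ) 2]

theorem mem_eball_zero {F : Type*} [SeminormedAddCommGroup F] {v : F} {ρ : ℝ≥0} {R : ℝ≥0∞}
    (hv : ‖v‖ < ρ) (h : (ρ : ℝ≥0∞) ≤ R) : v ∈ Metric.eball (0 : F) R := by
  rw [Metric.mem_eball, edist_zero_right]
  refine lt_of_lt_of_le ?_ h
  rw [enorm_eq_nnnorm]
  exact ENNReal.coe_lt_coe.mpr (NNReal.coe_lt_coe.mp hv)

/-- **Local polarization.** -/
theorem exists_polarization {p : (Fin n → ℂ) → ℝ} {x : Fin n → ℂ} (hp : AnalyticAt ℝ p x) :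
    ∃ r > 0, ∃ P : (Fin n → ℂ) × (Fin n → ℂ) → ℂ, AnalyticOnNhd ℂ P (ball (x, star x) r) ∧
      ∀ z ∈ ball x r, P (z, star z) = (p z : ℂ) := by
  obtain ⟨q, R, hq⟩ := hp
  obtain ⟨s, hs0, hsR⟩ : ∃ s : ℝ≥0, 0 < s ∧ (s : ℝ≥0∞) < R := by
    obtain ⟨s, h1, h2⟩ := ENNReal.lt_iff_exists_nnreal_btwn.mp hq.r_pos
    exact ⟨s, by exact_mod_cast h1, h2⟩
  obtain ⟨C, hC, hCb⟩ := q.norm_mul_pow_le_of_lt_radius (hsR.trans_le hq.r_le)
  -- the radius
  set ρ : ℝ≥0 := s / (2 * n + 1) with hρ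
  have hρ0 : 0 < ρ := by positivity
  have hρs : ρ ≤ s := by
    rw [hρ]
    apply div_le_of_le_mul₀ (by positivity) (by positivity)
    have : (1 : ℝ≥0) ≤ 2 * n + 1 := by
      simp
    calc s = s * 1 := (mul_one s).symm
      _ ≤ s * (2 * n + 1) := by gcongr
  have hrad : (ρ : ℝ≥0∞) ≤ (cq q).radius := by
    apply FormalMultilinearSeries.le_radius_of_bound _ C
    intro m
    refine (mul_le_mul_of_nonneg_right (norm_cq_le q m) (by positivity)).trans ?_
    have h1 : (2 * n : ℝ) * ρ ≤ s := by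
      rw [hρ]
      push_cast
      rw [mul_div_assoc', div_le_iff₀ (by positivity)]
      have hs' : (0 : ℝ) ≤ s := s.2
      nlinarith
    have h2 : (2 * n : ℝ) ^ m * ‖q m‖ * (ρ : ℝ) ^ m = ‖q m‖ * ((2 * n : ℝ) * ρ) ^ m := by
      rw [mul_pow]; ring
    rw [h2]
    refine le_trans ?_ (hCb m)
    gcongr
  have hpos : 0 < (cq q).radius := lt_of_lt_of_le (by exact_mod_cast hρ0) hrad
  have hQ := (cq q).hasFPowerSeriesOnBall hpos
  refine ⟨ρ, by exact_mod_cast hρ0, fun v => (cq q).sum (v - (x, star x)), ?_, ?_⟩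
  · intro v hv
    rw [mem_ball, dist_eq_norm] at hv
    have h2 := hQ.analyticAt_of_mem (mem_eball_zero hv hrad)
    have h3 : AnalyticAt ℂ (fun v : (Fin n → ℂ) × (Fin n → ℂ) => v - (x, star x)) v :=
      analyticAt_id.sub analyticAt_const
    exact AnalyticAt.comp (g := (cq q).sum) (f := fun v => v - (x, star x)) h2 h3
  · intro z hz
    rw [mem_ball, dist_eq_norm] at hz
    set h := z - x with hh
    have hz' : z = x + h := by rw [hh]; abel
    have h1 : (z, star z) - (x, star x) = (h, star h) := by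
      rw [Prod.mk_sub_mk, ← star_sub]
    have h2 : h ∈ Metric.eball (0 : Fin n → ℂ) R :=
      mem_eball_zero (lt_of_lt_of_le hz hρs) hsR.le
    have h3 := hq.hasSum h2
    have h4 : (h, star h) ∈ Metric.eball (0 : (Fin n → ℂ) × (Fin n → ℂ)) (cq q).radius := by
      apply mem_eball_zero _ hrad
      rw [Prod.norm_def, norm_star, max_self]
      exact hz
    have h5 := hQ.hasSum h4
    rw [zero_add] at h5
    simp only [cq_apply] at h5
    rw [← hz'] at h3
    have h6 := h3.mapL Complex.ofRealCLM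
    show (cq q).sum ((z, star z) - (x, star x)) = _
    rw [h1]
    exact h5.unique h6

end Pool.Agent.X192.HR
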