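import Mathlib
import Pool.Agent.X192.HR.A2
import Pool.Agent.Y785.MV.Osg

/-!
# The kernel of a function with finite rank restrictions to lines
-/

set_option autoImplicit false
set_option linter.unusedSectionVars false

open Set Metric Filter Topology

namespace Pool.Agent.X192.HR

theorem analytic_of_differentiable {E E' : Type*} [NormedAddCommGroup E] [NormedSpace ℂ E]
    [FiniteDimensional ℂ E] [NormedAddCommGroup E'] [NormedSpace ℂ E'] [FiniteDimensional ℂ E']
    {f : E → E'} (hf : Differentiable ℂ f) : AnalyticOnNhd ℂ f univ := by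
  have : CompleteSpace E' := FiniteDimensional.complete ℂ E'
  exact Pool.Agent.Y785.MV.Osg.analytic isOpen_univ hf.differentiableOn

section Gram

variable {E : Type*} [NormedAddCommGroup E] [NormedSpace ℂ E] [StarAddMonoid E] [StarModule ℂ E]
  [NormedStarGroup E] [FiniteDimensional ℂ E]

variable {E' : Type*} [NormedAddCommGroup E'] [NormedSpace ℂ E'] [StarAddMonoid E']
  [StarModule ℂ E'] [NormedStarGroup E'] [FiniteDimensional ℂ E']

/-- the kernel `∑ ε_j g_j(z) conj (g_j(w))` -/
noncomputable def gram {k : ℕ} (ε : Fin k → ℝ) (g : Fin k → E → ℂ) (z w : E) : ℂ :=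
  ∑ j, (ε j : ℂ) * g j z * star (g j w)

theorem gram_diag {k : ℕ} (ε : Fin k → ℝ) (g : Fin k → E → ℂ) (z : E) :
    gram ε g z z = ((∑ j, ε j * Complex.normSq (g j z) : ℝ) : ℂ) := by
  unfold gram
  push_cast
  refine Finset.sum_congr rfl fun j _ => ?_
  have : g j z * star (g j z) = (Complex.normSq (g j z) : ℂ) := Complex.mul_conj (g j z)
  rw [mul_assoc, this]

theorem gram_herm {k : ℕ} (ε : Fin k → ℝ) (g : Fin k → E → ℂ) (z w : E) :
    star (gram ε g z w) = gram ε g w z := by
  unfold gram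
  rw [star_sum]
  refine Finset.sum_congr rfl fun j _ => ?_
  have : star (ε j : ℂ) = (ε j : ℂ) := Complex.conj_ofReal _
  rw [star_mul, star_mul, star_star, this]
  ring

theorem differentiable_star_star {f : E → E'} (hf : Differentiable ℂ f) :
    Differentiable ℂ fun z => star (f (star z)) := by
  intro z
  have h := (hf (star z)).star_star
  rw [star_star] at h
  exact h

theorem gram_sesan {k : ℕ} (ε : Fin k → ℝ) {g : Fin k → E → ℂ} (hg : ∀ j, Differentiable ℂ (g j)) :
    SesAn (gram ε g) univ := by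
  have h1 : Differentiable ℂ fun v : E × E => gram ε g v.1 (star v.2) := by
    unfold gram
    apply Differentiable.fun_sum
    intro j _
    have h2 : Differentiable ℂ fun v : E × E => g j v.1 := (hg j).comp differentiable_fst
    have h3 : Differentiable ℂ fun v : E × E => star (g j (star v.2)) :=
      (differentiable_star_star (hg j)).comp differentiable_snd
    exact ((differentiable_const _).mul h2).mul h3
  intro v _
  exact analytic_of_differentiable h1 v trivial

theorem SesAn.comp {G : E → E → ℂ} {Ω : Set E} (hG : SesAn G Ω) {φ : E' → E}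
    (hφ : Differentiable ℂ φ) : SesAn (fun s t => G (φ s) (φ t)) (φ ⁻¹' Ω) := by
  intro v hv
  have h1 : Differentiable ℂ fun v : E' × E' => (φ v.1, star (φ (star v.2))) :=
    (hφ.comp differentiable_fst).prodMk ((differentiable_star_star hφ).comp differentiable_snd)
  have h2 := analytic_of_differentiable h1 v trivial
  have h3 : (fun v : E' × E' => G (φ v.1) (φ (star v.2))) =
      fun v => (fun u : E × E => G u.1 (star u.2)) ((fun v : E' × E' => (φ v.1, star (φ (star v.2)))) v) := by
    funext v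
    simp only [star_star]
  show AnalyticAt ℂ (fun v : E' × E' => G (φ v.1) (φ (star v.2))) v
  rw [h3]
  refine AnalyticAt.comp (g := fun u : E × E => G u.1 (star u.2)) ?_ h2
  apply hG
  refine ⟨hv.1, ?_⟩
  show star (star (φ (star v.2))) ∈ Ω
  rw [star_star]
  exact hv.2

/-- holomorphic in the first variable -/
theorem SesAn.analytic_left {G : E → E → ℂ} {Ω : Set E} (hG : SesAn G Ω) {w : E} (hw : w ∈ Ω) :
    AnalyticOnNhd ℂ (fun z => G z w) Ω := by
  intro z hz
  have h1 : AnalyticAt ℂ (fun z : E => (z, star w)) z := analyticAt_id.prod analyticAt_const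
  have h2 := AnalyticAt.comp (g := fun u : E × E => G u.1 (star u.2)) (f := fun z : E => (z, star w))
    (hG (z, star w) ⟨hz, by show star (star w) ∈ Ω; rwa [star_star]⟩) h1
  have h3 : (fun z => G z w) = (fun u : E × E => G u.1 (star u.2)) ∘ (fun z : E => (z, star w)) := by
    funext z
    simp only [Function.comp, star_star]
  rw [h3]
  exact h2

end Gram

variable {n : ℕ}

/-- the restriction of `p` to every complex line has finite rank -/
def LineRep (p : (Fin n → ℂ) → ℝ) : Prop :=
  ∀ a v : Fin n → ℂ, ∃ (k : ℕ) (ε : Fin k → ℝ) (h : Fin k → ℂ → ℂ),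
    (∀ j, Differentiable ℂ (h j)) ∧ ∀ ζ : ℂ, p (a + ζ • v) = ∑ j, ε j * Complex.normSq (h j ζ)

/-- `K` is the kernel of `p` -/
def IsKer (p : (Fin n → ℂ) → ℝ) (K : (Fin n → ℂ) → (Fin n → ℂ) → ℂ) : Prop :=
  ∀ a v : Fin n → ℂ, ∃ (k : ℕ) (ε : Fin k → ℝ) (h : Fin k → ℂ → ℂ),
    (∀ j, Differentiable ℂ (h j)) ∧
    (∀ ζ : ℂ, p (a + ζ • v) = ∑ j, ε j * Complex.normSq (h j ζ)) ∧
    ∀ ζ η : ℂ, K (a + ζ • v) (a + η • v) = gram ε h ζ η

theorem exists_isKer {p : (Fin n → ℂ) → ℝ} (hp : LineRep p) : ∃ K, IsKer p K := by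
  choose k ε h hd hh using hp
  refine ⟨fun z w => gram (ε w (z - w)) (h w (z - w)) 1 0, ?_⟩
  intro a v
  refine ⟨k a v, ε a v, h a v, hd a v, hh a v, ?_⟩
  intro ζ η
  set w := a + η • v with hw
  set z := a + ζ • v with hz
  have hzw : z - w = (ζ - η) • v := by rw [hz, hw, sub_smul]; abel
  -- the second kernel along the line
  let g : Fin (k a v) → ℂ → ℂ := fun j τ => h a v j (η + τ * (ζ - η))
  have hg : ∀ j, Differentiable ℂ (g j) := by
    intro j
    exact (hd a v j).comp (by fun_prop)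
  have h1 := gram_sesan (ε w (z - w)) (hd w (z - w))
  have h2 := gram_sesan (ε a v) hg
  have h3 := h1.eq_of_diag h2 isOpen_univ convex_univ (fun τ _ => by
    rw [gram_diag, gram_diag, ← hh w (z - w) τ]
    congr 1
    have : w + τ • (z - w) = a + (η + τ * (ζ - η)) • v := by
      rw [hzw, hw, add_smul, smul_smul]; abel
    rw [this, hh a v]) (mem_univ (1 : ℂ)) (mem_univ (0 : ℂ))
  show gram (ε w (z - w)) (h w (z - w)) 1 0 = gram (ε a v) (h a v) ζ η
  rw [h3]
  simp only [gram, g]
  simp

namespace IsKer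

variable {p : (Fin n → ℂ) → ℝ} {K : (Fin n → ℂ) → (Fin n → ℂ) → ℂ}

theorem diag (hK : IsKer p K) (z : Fin n → ℂ) : K z z = (p z : ℂ) := by
  obtain ⟨k, ε, h, -, h1, h2⟩ := hK z 0
  have h3 := h2 0 0
  have h4 := h1 0
  rw [smul_zero, add_zero] at h3 h4
  rw [h3, gram_diag, h4]

theorem herm (hK : IsKer p K) (z w : Fin n → ℂ) : star (K z w) = K w z := by
  obtain ⟨k, ε, h, -, -, h2⟩ := hK w (z - w)
  have h3 := h2 1 0
  have h4 := h2 0 1
  rw [zero_smul, one_smul, add_zero, add_sub_cancel] at h3 h4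
  rw [h3, h4, gram_herm]

/-- `K(·, w)` is entire on the lines through `w` -/
theorem line (hK : IsKer p K) (w v : Fin n → ℂ) : Differentiable ℂ fun ζ : ℂ => K (w + ζ • v) w := by
  obtain ⟨k, ε, h, h1, -, h2⟩ := hK w v
  have h3 : (fun ζ : ℂ => K (w + ζ • v) w) = fun ζ => gram ε h ζ 0 := by
    funext ζ
    have := h2 ζ 0
    rwa [zero_smul, add_zero] at this
  rw [h3]
  unfold gram
  apply Differentiable.fun_sum
  intro j _
  exact ((differentiable_const _).mul (h1 j)).mul (differentiable_const _)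

theorem sesan_line (hK : IsKer p K) (w v : Fin n → ℂ) :
    SesAn (fun ζ η : ℂ => K (w + ζ • v) (w + η • v)) univ := by
  obtain ⟨k, ε, h, h1, -, h2⟩ := hK w v
  have h3 : (fun ζ η : ℂ => K (w + ζ • v) (w + η • v)) = gram ε h := by
    funext ζ η
    exact h2 ζ η
  rw [h3]
  exact gram_sesan ε h1

theorem eq_of_sesan (hK : IsKer p K) {G : (Fin n → ℂ) → (Fin n → ℂ) → ℂ} {Ω : Set (Fin n → ℂ)}
    (hG : SesAn G Ω) (ho : IsOpen Ω) (hc : Convex ℝ Ω) (hd : ∀ z ∈ Ω, G z z = (p z : ℂ))
    {z w : Fin n → ℂ} (hz : z ∈ Ω) (hw : w ∈ Ω) : K z w = G z w := by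
  let φ : ℂ → Fin n → ℂ := fun ζ => w + ζ • (z - w)
  have hφ : Differentiable ℂ φ := by
    intro ζ
    exact (differentiableAt_const _).add (differentiableAt_id.smul_const _)
  have hφc : Continuous φ := hφ.continuous
  have hc' : Convex ℝ (φ ⁻¹' Ω) := by
    intro x hx y hy a b ha hb hab
    have : φ (a • x + b • y) = a • φ x + b • φ y := by
      simp only [φ]
      have hw' : w = a • w + b • w := by rw [← add_smul, hab, one_smul]
      rw [smul_add, smul_add, add_smul, smul_assoc, smul_assoc]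
      nth_rewrite 1 [hw']
      abel
    show φ (a • x + b • y) ∈ Ω
    rw [this]
    exact hc hx hy ha hb hab
  have h1 := (hK.sesan_line w (z - w)).mono (subset_univ (φ ⁻¹' Ω))
  have h2 := hG.comp hφ
  have h3 := h1.eq_of_diag h2 (ho.preimage hφc) hc' (fun ζ hζ => by
    show K (φ ζ) (φ ζ) = G (φ ζ) (φ ζ)
    rw [hK.diag, hd _ hζ]) (z := 1) (w := 0) (by simpa [φ] using hz) (by simpa [φ] using hw)
  have e1 : w + (1 : ℂ) • (z - w) = z := by simp
  have e0 : w + (0 : ℂ) • (z - w) = w := by simp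
  simp only [φ, e1, e0] at h3
  exact h3

/-- near every point of the diagonal the kernel is holomorphic-antiholomorphic -/
theorem sesan_near (hK : IsKer p K) {x : Fin n → ℂ} (hp : AnalyticAt ℝ p x) :
    ∃ r > 0, SesAn K (ball x r) := by
  obtain ⟨r, hr, P, hP, hPp⟩ := exists_polarization hp
  have hG : SesAn (fun z w => P (z, star w)) (ball x r) := by
    intro v hv
    have h1 : (fun v : (Fin n → ℂ) × (Fin n → ℂ) => P (v.1, star (star v.2))) = P := by
      funext v
      rw [star_star]
    show AnalyticAt ℂ (fun v : (Fin n → ℂ) × (Fin n → ℂ) => P (v.1, star (star v.2))) v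
    rw [h1]
    apply hP
    rw [← ball_prod_same]
    refine ⟨hv.1, ?_⟩
    have h2 : star v.2 ∈ ball x r := hv.2
    rw [mem_ball, dist_eq_norm] at h2 ⊢
    rw [← norm_star, star_sub, star_star]
    exact h2
  refine ⟨r, hr, ?_⟩
  have h1 : ∀ z ∈ ball x r, ∀ w ∈ ball x r, K z w = P (z, star w) := fun z hz w hw =>
    hK.eq_of_sesan hG isOpen_ball (convex_ball x r) hPp hz hw
  intro v hv
  refine (hG v hv).congr ?_
  have h2 : {v : (Fin n → ℂ) × (Fin n → ℂ) | v.1 ∈ ball x r ∧ star v.2 ∈ ball x r} ∈ 𝓝 v := by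
    apply IsOpen.mem_nhds _ hv
    apply IsOpen.inter
    · exact isOpen_ball.preimage continuous_fst
    · exact isOpen_ball.preimage (continuous_star.comp continuous_snd)
  filter_upwards [h2] with u hu
  exact (h1 _ hu.1 _ hu.2).symm

end IsKer

end Pool.Agent.X192.HR
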