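import Mathlib

/-!
# Minors, factorizations and the dimension lemma
-/

set_option autoImplicit false

open Set Metric Filter Topology

namespace Pool.Agent.X192.HR

/-- a wide matrix has a kernel -/
theorem exists_kernel_vector {ι κ : Type*} [Fintype ι] [Fintype κ]
    (h : Fintype.card ι < Fintype.card κ) (T : Matrix ι κ ℂ) :
    ∃ c : κ → ℂ, c ≠ 0 ∧ ∀ i, ∑ j, T i j * c j = 0 := by
  classical
  have h1 : LinearMap.ker T.mulVecLin ≠ ⊥ := by
    apply LinearMap.ker_ne_bot_of_finrank_lt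
    rw [Module.finrank_fintype_fun_eq_card, Module.finrank_fintype_fun_eq_card]
    exact h
  obtain ⟨c, hc, hc0⟩ := (Submodule.ne_bot_iff _).mp h1
  refine ⟨c, hc0, fun i => ?_⟩
  have h2 := congrFun (LinearMap.mem_ker.mp hc) i
  exact h2

/-- all minors of size `N + 1` of the kernel `P` vanish -/
def MinorsVanish {X W : Type*} (P : X → W → ℂ) (N : ℕ) : Prop :=
  ∀ (x : Fin (N + 1) → X) (w : Fin (N + 1) → W), (Matrix.of fun i j => P (x i) (w j)).det = 0

theorem det_eq_zero_of_vector {N : ℕ} {M : Matrix (Fin N) (Fin N) ℂ} {c : Fin N → ℂ} (hc : c ≠ 0)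
    (h : ∀ i, ∑ j, M i j * c j = 0) : M.det = 0 := by
  rw [← Matrix.exists_mulVec_eq_zero_iff]
  exact ⟨c, hc, funext h⟩

theorem minorsVanish_of_factor {X W ι : Type*} [Fintype ι] {P : X → W → ℂ} {N : ℕ}
    (hN : Fintype.card ι ≤ N) (α : ι → X → ℂ) (β : ι → W → ℂ)
    (h : ∀ x w, P x w = ∑ l, α l x * β l w) : MinorsVanish P N := by
  intro x w
  obtain ⟨c, hc, hc0⟩ := exists_kernel_vector (ι := ι) (κ := Fin (N + 1))
    (by rw [Fintype.card_fin]; omega) (Matrix.of fun l j => β l (w j))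
  apply det_eq_zero_of_vector hc
  intro i
  simp only [Matrix.of_apply] at hc0 ⊢
  simp only [h, Finset.sum_mul]
  rw [Finset.sum_comm]
  apply Finset.sum_eq_zero
  intro l _
  have := hc0 l
  calc ∑ j, α l (x i) * β l (w j) * c j = α l (x i) * ∑ j, β l (w j) * c j := by
        rw [Finset.mul_sum]
        exact Finset.sum_congr rfl fun j _ => by ring
    _ = 0 := by rw [this, mul_zero]

/-- the kernel is determined by a nonvanishing minor of maximal size -/
theorem bordered {X W : Type*} {P : X → W → ℂ} {r : ℕ} {x : Fin r → X} {w : Fin r → W}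
    (hM : (Matrix.of fun i j => P (x i) (w j)).det ≠ 0) (hP : MinorsVanish P r) (x' : X) (w' : W) :
    P x' w' = ∑ j, P x' (w j) * ∑ i, (Matrix.of fun i j => P (x i) (w j))⁻¹ j i * P (x i) w' := by
  set M : Matrix (Fin r) (Fin r) ℂ := Matrix.of fun i j => P (x i) (w j) with hMdef
  have hu : IsUnit M.det := isUnit_iff_ne_zero.mpr hM
  have h0 := hP (Fin.snoc x x') (Fin.snoc w w')
  rw [← Matrix.exists_mulVec_eq_zero_iff] at h0
  obtain ⟨c, hc, hc0⟩ := h0
  have hrow : ∀ i : Fin r, ∑ j : Fin r, M i j * c j.castSucc + P (x i) w' * c (Fin.last r) = 0 := by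
    intro i
    have := congrFun hc0 i.castSucc
    simp only [Matrix.mulVec, dotProduct, Matrix.of_apply, Fin.sum_univ_castSucc, Fin.snoc_castSucc,
      Fin.snoc_last, Pi.zero_apply] at this
    exact this
  have hlast : ∑ j : Fin r, P x' (w j) * c j.castSucc + P x' w' * c (Fin.last r) = 0 := by
    have := congrFun hc0 (Fin.last r)
    simp only [Matrix.mulVec, dotProduct, Matrix.of_apply, Fin.sum_univ_castSucc, Fin.snoc_castSucc,
      Fin.snoc_last, Pi.zero_apply] at this
    exact this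
  -- solve for the first coordinates
  have hsol : ∀ j : Fin r, c j.castSucc = -(c (Fin.last r) * ∑ i, M⁻¹ j i * P (x i) w') := by
    have h1 : M.mulVec (fun j => c j.castSucc) = fun i => -(c (Fin.last r) * P (x i) w') := by
      funext i
      show ∑ j, M i j * c j.castSucc = _
      linear_combination hrow i
    intro j
    have h2 : (M⁻¹).mulVec (M.mulVec fun j => c j.castSucc) = fun j => c j.castSucc := by
      rw [Matrix.mulVec_mulVec, Matrix.nonsing_inv_mul _ hu, Matrix.one_mulVec]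
    rw [h1] at h2
    have h3 := congrFun h2 j
    simp only [Matrix.mulVec, dotProduct] at h3
    rw [← h3, Finset.mul_sum, ← Finset.sum_neg_distrib]
    exact Finset.sum_congr rfl fun i _ => by ring
  have hcl : c (Fin.last r) ≠ 0 := by
    intro h
    apply hc
    funext j
    refine Fin.lastCases ?_ (fun j => ?_) j
    · exact h
    · rw [hsol j, h]; simp
  have h4 : c (Fin.last r) * (P x' w' - ∑ j, P x' (w j) * ∑ i, M⁻¹ j i * P (x i) w') = 0 := by
    rw [mul_sub, Finset.mul_sum]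
    have h5 : ∀ j : Fin r, c (Fin.last r) * (P x' (w j) * ∑ i, M⁻¹ j i * P (x i) w') =
        -(P x' (w j) * c j.castSucc) := by
      intro j
      rw [hsol j]; ring
    rw [Finset.sum_congr rfl fun j _ => h5 j, Finset.sum_neg_distrib]
    linear_combination hlast
  exact sub_eq_zero.mp ((mul_eq_zero.mp h4).resolve_left hcl)

/-- maximal nonvanishing minors, uniformly in a parameter -/
theorem exists_max_minor {Y X W : Type*} (Q : Y → X → W → ℂ) [Nonempty Y] {N : ℕ}
    (h : ∀ y, MinorsVanish (Q y) N) :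
    ∃ r ≤ N, (∃ (y : Y) (x : Fin r → X) (w : Fin r → W),
      (Matrix.of fun i j => Q y (x i) (w j)).det ≠ 0) ∧ ∀ y, MinorsVanish (Q y) r := by
  classical
  let S : ℕ → Prop := fun r => ∃ (y : Y) (x : Fin r → X) (w : Fin r → W),
      (Matrix.of fun i j => Q y (x i) (w j)).det ≠ 0
  have hS0 : S 0 := by
    obtain ⟨y⟩ := ‹Nonempty Y›
    exact ⟨y, Fin.elim0, Fin.elim0, by simp⟩
  refine ⟨Nat.findGreatest S N, Nat.findGreatest_le N, Nat.findGreatest_spec (Nat.zero_le N) hS0,
    ?_⟩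
  intro y
  rcases (Nat.findGreatest_le (P := S) N).lt_or_eq with hlt | heq
  · have h1 : ¬ S (Nat.findGreatest S N + 1) :=
      Nat.findGreatest_is_greatest (Nat.lt_succ_self _) hlt
    intro x w
    by_contra hne
    exact h1 ⟨y, x, w, hne⟩
  · rw [heq]
    exact h y

/-- factorization from vanishing minors -/
theorem MinorsVanish.factor {X W : Type*} {P : X → W → ℂ} {N : ℕ} (h : MinorsVanish P N) :
    ∃ r ≤ N, ∃ (α : Fin r → X → ℂ) (β : Fin r → W → ℂ), ∀ x w, P x w = ∑ l, α l x * β l w := by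
  obtain ⟨r, hr, ⟨-, x, w, hdet⟩, hv⟩ := exists_max_minor (Y := Unit) (fun _ => P) fun _ => h
  exact ⟨r, hr, fun j x' => P x' (w j),
    fun j w' => ∑ i, (Matrix.of fun i j => P (x i) (w j))⁻¹ j i * P (x i) w',
    fun x' w' => bordered hdet (hv ()) x' w'⟩

theorem MinorsVanish.swap {X W : Type*} {P : X → W → ℂ} {N : ℕ} (h : MinorsVanish P N) :
    MinorsVanish (fun w x => P x w) N := by
  intro w x
  have := h x w
  rw [← Matrix.det_transpose] at this
  exact this

theorem MinorsVanish.comp {X W X' W' : Type*} {P : X → W → ℂ} {N : ℕ} (h : MinorsVanish P N)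
    (f : X' → X) (g : W' → W) : MinorsVanish (fun x w => P (f x) (g w)) N :=
  fun x w => h (fun i => f (x i)) fun j => g (w j)

theorem MinorsVanish.conj {X W : Type*} {P : X → W → ℂ} {N : ℕ} (h : MinorsVanish P N) :
    MinorsVanish (fun x w => star (P x w)) N := by
  intro x w
  have h1 := congrArg (starRingEnd ℂ) (h x w)
  rw [RingHom.map_det, map_zero] at h1
  exact h1

/-! ### The dimension lemma -/

theorem cons_mem_ball {m : ℕ} {ρ : ℝ} (hρ : 0 < ρ) {t : ℂ} {s : Fin m → ℂ} :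
    (Fin.cons t s : Fin (m + 1) → ℂ) ∈ ball (0 : Fin (m + 1) → ℂ) ρ ↔
      t ∈ ball (0 : ℂ) ρ ∧ s ∈ ball (0 : Fin m → ℂ) ρ := by
  simp only [mem_ball, dist_zero_right]
  rw [pi_norm_lt_iff hρ, pi_norm_lt_iff hρ, Fin.forall_fin_succ]
  simp

theorem dimension_lemma {m k1 k2 : ℕ} {W : Type*} {P : (Fin (m + 1) → ℂ) → W → ℂ} {ρ : ℝ}
    (hρ : 0 < ρ) (han : ∀ w, AnalyticOnNhd ℂ (fun z => P z w) (ball 0 ρ))
    (hA : ∀ t : ball (0 : ℂ) ρ,
      MinorsVanish (fun (s : ball (0 : Fin m → ℂ) ρ) w => P (Fin.cons t.1 s.1) w) k1)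
    (hB : ∀ a : ball (0 : Fin m → ℂ) ρ,
      MinorsVanish (fun (t : ball (0 : ℂ) ρ) w => P (Fin.cons t.1 a.1) w) k2) :
    MinorsVanish (fun (z : ball (0 : Fin (m + 1) → ℂ) ρ) w => P z.1 w) (k1 * k2) := by
  classical
  haveI : Nonempty (ball (0 : ℂ) ρ) := ⟨⟨0, mem_ball_self hρ⟩⟩
  obtain ⟨r, hr, ⟨t₀, s, w, hdet⟩, hv⟩ := exists_max_minor
    (fun (t : ball (0 : ℂ) ρ) (s : ball (0 : Fin m → ℂ) ρ) w => P (Fin.cons t.1 s.1) w) hA
  intro x w'
  -- factorizations along the lines
  choose κ hκ α β hαβ using fun i : Fin r => (hB (s i)).factor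
  obtain ⟨c, hc, hc0⟩ := exists_kernel_vector (ι := Σ i : Fin r, Fin (κ i))
    (κ := Fin (k1 * k2 + 1)) (by
      rw [Fintype.card_sigma, Fintype.card_fin]
      simp only [Fintype.card_fin]
      calc ∑ i, κ i ≤ ∑ _i : Fin r, k2 := Finset.sum_le_sum fun i _ => hκ i
        _ = r * k2 := by rw [Finset.sum_const, Finset.card_univ, Fintype.card_fin, smul_eq_mul]
        _ ≤ k1 * k2 := Nat.mul_le_mul_right _ hr
        _ < k1 * k2 + 1 := Nat.lt_succ_self _)
    (Matrix.of fun (il : Σ i : Fin r, Fin (κ i)) b => β il.1 il.2 (w' b))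
  have hlines : ∀ (i : Fin r) (t : ball (0 : ℂ) ρ),
      ∑ b, P (Fin.cons t.1 (s i).1) (w' b) * c b = 0 := by
    intro i t
    simp only [hαβ i t]
    simp only [Finset.sum_mul]
    rw [Finset.sum_comm]
    apply Finset.sum_eq_zero
    intro l _
    have h1 := hc0 ⟨i, l⟩
    simp only [Matrix.of_apply] at h1
    calc ∑ b, α i l t * β i l (w' b) * c b = α i l t * ∑ b, β i l (w' b) * c b := by
          rw [Finset.mul_sum]
          exact Finset.sum_congr rfl fun b _ => by ring
      _ = 0 := by rw [h1, mul_zero]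
  -- the combination
  let f : (Fin (m + 1) → ℂ) → ℂ := fun z => ∑ b, P z (w' b) * c b
  have hf : AnalyticOnNhd ℂ f (ball 0 ρ) := by
    intro z hz
    exact Finset.analyticAt_fun_sum _ fun b _ => (han (w' b) z hz).mul analyticAt_const
  -- near `t₀` the minors do not vanish
  have hcons : ∀ a : Fin m → ℂ, Continuous fun t : ℂ => (Fin.cons t a : Fin (m + 1) → ℂ) := by
    intro a
    exact Continuous.finCons continuous_id continuous_const
  have hne : ∀ᶠ t : ℂ in 𝓝 t₀.1, ∃ ht : t ∈ ball (0 : ℂ) ρ,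
      (Matrix.of fun i j => P (Fin.cons t (s i).1) (w j)).det ≠ 0 := by
    have h1 : ContinuousAt (fun t : ℂ => (Matrix.of fun i j => P (Fin.cons t (s i).1) (w j)).det)
        t₀.1 := by
      have h2 : ∀ i j, ContinuousAt (fun t : ℂ => P (Fin.cons t (s i).1) (w j)) t₀.1 := by
        intro i j
        have h3 := (han (w j) (Fin.cons t₀.1 (s i).1)
          ((cons_mem_ball hρ).mpr ⟨t₀.2, (s i).2⟩)).continuousAt
        exact ContinuousAt.comp (g := fun z => P z (w j)) (f := fun t : ℂ =>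
          (Fin.cons t (s i).1 : Fin (m + 1) → ℂ)) h3 (hcons _).continuousAt
      simp only [Matrix.det_apply]
      exact tendsto_finsetSum _ fun σ _ => (tendsto_finsetProd _ fun i _ => h2 _ _).const_smul _
    have h4 := h1.eventually_ne hdet
    filter_upwards [h4, isOpen_ball.mem_nhds t₀.2] with t h5 h6
    exact ⟨h6, h5⟩
  have hzero : f =ᶠ[𝓝 (Fin.cons t₀.1 0 : Fin (m + 1) → ℂ)] 0 := by
    have hz₀ : (Fin.cons t₀.1 0 : Fin (m + 1) → ℂ) ∈ ball (0 : Fin (m + 1) → ℂ) ρ :=
      (cons_mem_ball hρ).mpr ⟨t₀.2, mem_ball_self hρ⟩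
    have h1 : ∀ᶠ z : Fin (m + 1) → ℂ in 𝓝 (Fin.cons t₀.1 0 : Fin (m + 1) → ℂ),
        ∃ ht : z 0 ∈ ball (0 : ℂ) ρ,
          (Matrix.of fun i j => P (Fin.cons (z 0) (s i).1) (w j)).det ≠ 0 := by
      have h2 : Tendsto (fun z : Fin (m + 1) → ℂ => z 0) (𝓝 (Fin.cons t₀.1 0 : Fin (m + 1) → ℂ))
          (𝓝 t₀.1) := (continuous_apply (0 : Fin (m + 1))).tendsto _
      exact h2.eventually hne
    filter_upwards [h1, isOpen_ball.mem_nhds hz₀] with z hz hzb
    obtain ⟨ht, hd⟩ := hz
    have hzc : z = Fin.cons (z 0) (Fin.tail z) := (Fin.cons_self_tail z).symm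
    have htail : Fin.tail z ∈ ball (0 : Fin m → ℂ) ρ := by
      rw [hzc] at hzb
      exact ((cons_mem_ball hρ).mp hzb).2
    have hb := bordered (P := fun (s : ball (0 : Fin m → ℂ) ρ) w => P (Fin.cons (z 0) s.1) w)
      (x := s) (w := w) hd (hv ⟨z 0, ht⟩) ⟨Fin.tail z, htail⟩
    show ∑ b, P z (w' b) * c b = 0
    have hb' : ∀ b, P z (w' b) = ∑ j, P z (w j) * ∑ i,
        (Matrix.of fun i j => P (Fin.cons (z 0) (s i).1) (w j))⁻¹ j i *
          P (Fin.cons (z 0) (s i).1) (w' b) := by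
      intro b
      have := hb (w' b)
      rw [← hzc] at this
      exact this
    have h3 : ∀ b, P z (w' b) * c b = ∑ j, ∑ i, P z (w j) *
        (Matrix.of fun i j => P (Fin.cons (z 0) (s i).1) (w j))⁻¹ j i *
          (P (Fin.cons (z 0) (s i).1) (w' b) * c b) := by
      intro b
      rw [hb' b, Finset.sum_mul]
      refine Finset.sum_congr rfl fun j _ => ?_
      rw [Finset.mul_sum, Finset.sum_mul]
      exact Finset.sum_congr rfl fun i _ => by ring
    rw [Finset.sum_congr rfl fun b _ => h3 b, Finset.sum_comm]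
    apply Finset.sum_eq_zero
    intro j _
    rw [Finset.sum_comm]
    apply Finset.sum_eq_zero
    intro i _
    rw [← Finset.mul_sum, hlines i ⟨z 0, ht⟩, mul_zero]
  have hall : EqOn f 0 (ball 0 ρ) :=
    hf.eqOn_zero_of_preconnected_of_eventuallyEq_zero (convex_ball _ _).isPreconnected
      ((cons_mem_ball hρ).mpr ⟨t₀.2, mem_ball_self hρ⟩) hzero
  apply det_eq_zero_of_vector hc
  intro i
  exact hall (x i).2

end Pool.Agent.X192.HR
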