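import Mathlib
import Pool.Agent.X192.HR.A3
import Pool.Agent.X192.HR.A4

/-!
# The local rank
-/

set_option autoImplicit false

open Set Metric Filter Topology

namespace Pool.Agent.X192.HR

/-- every linear map factors through an injective one, if there is enough room -/
theorem exists_factor_injective {V W : Type*} [AddCommGroup V] [Module ℂ V] [FiniteDimensional ℂ V]
    [AddCommGroup W] [Module ℂ W] [FiniteDimensional ℂ W]
    (h : Module.finrank ℂ V ≤ Module.finrank ℂ W) (L : V →ₗ[ℂ] W) :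
    ∃ (L' : V →ₗ[ℂ] W) (M : V →ₗ[ℂ] V), Function.Injective L' ∧ ∀ x, L x = L' (M x) := by
  obtain ⟨C, hC⟩ := (LinearMap.ker L).exists_isCompl
  obtain ⟨D, hD⟩ := (LinearMap.range L).exists_isCompl
  have h1 : Module.finrank ℂ (LinearMap.ker L) ≤ Module.finrank ℂ D := by
    have e1 := LinearMap.finrank_range_add_finrank_ker L
    have e2 := Submodule.finrank_add_eq_of_isCompl hD
    omega
  obtain ⟨j, hj⟩ := finrank_le_iff_exists_linearMap.mp h1
  let πK : V →ₗ[ℂ] LinearMap.ker L := (LinearMap.ker L).projectionOnto C hC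
  let πC : V →ₗ[ℂ] C := C.projectionOnto (LinearMap.ker L) hC.symm
  let M : V →ₗ[ℂ] V := C.subtype ∘ₗ πC
  have hLM : ∀ x, L (M x) = L x := by
    intro x
    have h2 : x - M x ∈ LinearMap.ker L := by
      have h3 : πC (x - M x) = 0 := by
        rw [map_sub]
        have : πC (M x) = πC x := Submodule.projectionOnto_apply_left hC.symm (πC x)
        rw [this, sub_self]
      exact (Submodule.projectionOnto_apply_eq_zero_iff hC.symm).mp h3
    rw [LinearMap.mem_ker, map_sub, sub_eq_zero] at h2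
    exact h2.symm
  refine ⟨L ∘ₗ M + D.subtype ∘ₗ j ∘ₗ πK, M, ?_, ?_⟩
  · rw [injective_iff_map_eq_zero]
    intro x hx
    have hx' : L (M x) + (j (πK x) : W) = 0 := hx
    have h2 : L (M x) ∈ LinearMap.range L := LinearMap.mem_range_self _ _
    have h3 : (j (πK x) : W) ∈ D := (j (πK x)).2
    have h4 : L (M x) ∈ D := by
      have : L (M x) = -(j (πK x) : W) := eq_neg_of_add_eq_zero_left hx'
      rw [this]
      exact D.neg_mem h3
    have h5 : L (M x) = 0 := by
      have := hD.disjoint.le_bot ⟨h2, h4⟩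
      simpa using this
    have h6 : j (πK x) = 0 := by
      rw [h5, zero_add] at hx'
      exact Subtype.ext hx'
    have h7 : πK x = 0 := hj (by rw [h6, map_zero])
    have h8 : x ∈ C := (Submodule.projectionOnto_apply_eq_zero_iff hC).mp h7
    have h9 : x ∈ LinearMap.ker L := by
      rw [LinearMap.mem_ker, ← hLM, h5]
    have := hC.disjoint.le_bot ⟨h9, h8⟩
    simpa using this
  · intro x
    have h2 : πK (M x) = 0 := by
      rw [Submodule.projectionOnto_apply_eq_zero_iff]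
      exact (πC x).2
    show L x = L (M (M x)) + (j (πK (M x)) : W)
    rw [h2, map_zero, hLM, hLM]
    simp

/-- a function on a convex open set which vanishes at the real points vanishes -/
theorem real_points {D : Set ℂ} (hDo : IsOpen D) (hDc : Convex ℝ D) (h0 : (0 : ℂ) ∈ D) {c : ℂ}
    (hc : c ∈ D) {F : ℂ → ℂ} (hF : AnalyticOnNhd ℂ F D) (h : ∀ t : ℝ, (t : ℂ) ∈ D → F t = 0) :
    F c = 0 := by
  have hfreq : ∃ᶠ c in 𝓝[≠] (0 : ℂ), F c = 0 := by
    have h1 : ∀ᶠ t : ℝ in 𝓝[≠] (0 : ℝ), (t : ℂ) ∈ D := by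
      have h2 : ∀ᶠ t : ℝ in 𝓝 (0 : ℝ), (t : ℂ) ∈ D := by
        have h3 : Continuous fun t : ℝ => (t : ℂ) := Complex.continuous_ofReal
        exact h3.continuousAt.preimage_mem_nhds (by
          rw [Complex.ofReal_zero]
          exact hDo.mem_nhds h0)
      exact h2.filter_mono nhdsWithin_le_nhds
    have h2 : Tendsto (fun t : ℝ => (t : ℂ)) (𝓝[≠] (0 : ℝ)) (𝓝[≠] (0 : ℂ)) := by
      rw [tendsto_nhdsWithin_iff]
      refine ⟨?_, ?_⟩
      · have h3 : Tendsto (fun t : ℝ => (t : ℂ)) (𝓝 (0 : ℝ)) (𝓝 ((0 : ℝ) : ℂ)) :=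
          Complex.continuous_ofReal.tendsto 0
        rw [Complex.ofReal_zero] at h3
        exact h3.mono_left nhdsWithin_le_nhds
      · filter_upwards [self_mem_nhdsWithin] with t ht
        simpa using ht
    apply h2.frequently
    apply Eventually.frequently
    filter_upwards [h1] with t ht
    exact h t ht
  exact hF.eqOn_zero_of_preconnected_of_frequently_eq_zero hDc.isPreconnected h0 hfreq hc

theorem analyticAt_det {E : Type*} [NormedAddCommGroup E] [NormedSpace ℂ E] {m : Type*} [Fintype m]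
    [DecidableEq m] {A : E → Matrix m m ℂ} {y : E}
    (h : ∀ i j, AnalyticAt ℂ (fun y => A y i j) y) : AnalyticAt ℂ (fun y => (A y).det) y := by
  simp only [Matrix.det_apply']
  exact Finset.analyticAt_fun_sum _ fun σ _ => analyticAt_const.mul
    (Finset.analyticAt_fun_prod _ fun i _ => h _ _)

/-- composition with a line in the space of pairs -/
theorem SesAn.analytic_twoLines {n : ℕ} {G : (Fin n → ℂ) → (Fin n → ℂ) → ℂ} {Ω : Set (Fin n → ℂ)}
    (hG : SesAn G Ω) (U W U' W' : Fin n → ℂ) {c : ℂ} (h : U + c • W ∈ Ω)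
    (h' : U' + (star c) • W' ∈ Ω) :
    AnalyticAt ℂ (fun c : ℂ => G (U + c • W) (U' + (star c) • W')) c := by
  have hstar : ∀ c : ℂ, star (star U' + c • star W') = U' + (star c) • W' := by
    intro c
    rw [star_add, star_star, star_smul, star_star]
  have h1 : AnalyticAt ℂ (fun c : ℂ => (U + c • W, star U' + c • star W')) c :=
    (analyticAt_const.add (analyticAt_id.smul analyticAt_const)).prod
      (analyticAt_const.add (analyticAt_id.smul analyticAt_const))
  have h2 := AnalyticAt.comp (g := fun u : (Fin n → ℂ) × (Fin n → ℂ) => G u.1 (star u.2))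
    (f := fun c : ℂ => (U + c • W, star U' + c • star W'))
    (hG _ ⟨h, by show star (star U' + c • star W') ∈ Ω; rw [hstar]; exact h'⟩) h1
  have h3 : (fun c : ℂ => G (U + c • W) (U' + (star c) • W')) =
      (fun u : (Fin n → ℂ) × (Fin n → ℂ) => G u.1 (star u.2)) ∘
        (fun c : ℂ => (U + c • W, star U' + c • star W')) := by
    funext c
    simp only [Function.comp, hstar]
  rw [h3]
  exact h2

theorem convex_line {n : ℕ} {Ω : Set (Fin n → ℂ)} (hΩ : Convex ℝ Ω) (U W : Fin n → ℂ) :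
    Convex ℝ {c : ℂ | U + c • W ∈ Ω} := by
  intro x hx y hy a b ha hb hab
  have : U + (a • x + b • y) • W = a • (U + x • W) + b • (U + y • W) := by
    rw [smul_add, smul_add, add_smul, smul_assoc, smul_assoc]
    have : U = a • U + b • U := by rw [← add_smul, hab, one_smul]
    nth_rewrite 1 [this]
    abel
  show U + (a • x + b • y) • W ∈ Ω
  rw [this]
  exact hΩ hx hy ha hb hab

theorem convex_line_star {n : ℕ} {Ω : Set (Fin n → ℂ)} (hΩ : Convex ℝ Ω) (U W : Fin n → ℂ) :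
    Convex ℝ {c : ℂ | U + (star c) • W ∈ Ω} := by
  intro x hx y hy a b ha hb hab
  have h1 : star (a • x + b • y) = a • star x + b • star y := by
    rw [star_add, star_smul, star_smul, star_trivial a, star_trivial b]
  show U + (star (a • x + b • y)) • W ∈ Ω
  rw [h1]
  exact convex_line hΩ U W hx hy ha hb hab

/-- an affine map -/
def IsAff {d n : ℕ} (φ : (Fin d → ℂ) → Fin n → ℂ) : Prop :=
  ∃ (a : Fin n → ℂ) (L : (Fin d → ℂ) →ₗ[ℂ] (Fin n → ℂ)), ∀ s, φ s = a + L s

theorem IsAff.differentiable {d n : ℕ} {φ : (Fin d → ℂ) → Fin n → ℂ} (h : IsAff φ) :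
    Differentiable ℂ φ := by
  obtain ⟨a, L, hL⟩ := h
  have : φ = fun s => a + L.toContinuousLinearMap s := by
    funext s
    exact hL s
  rw [this]
  exact (differentiable_const _).add L.toContinuousLinearMap.differentiable

theorem IsAff.convex_preimage {d n : ℕ} {φ : (Fin d → ℂ) → Fin n → ℂ} (h : IsAff φ)
    {Ω : Set (Fin n → ℂ)} (hΩ : Convex ℝ Ω) : Convex ℝ (φ ⁻¹' Ω) := by
  obtain ⟨a₀, L, hL⟩ := h
  intro x hx y hy a b ha hb hab
  have hreal : ∀ (t : ℝ) (z : Fin d → ℂ), L (t • z) = t • L z := by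
    intro t z
    have : ∀ (d : ℕ) (z : Fin d → ℂ), t • z = (t : ℂ) • z := by
      intro d z
      ext i
      simp
    rw [this, this, map_smul]
  show φ (a • x + b • y) ∈ Ω
  have : φ (a • x + b • y) = a • φ x + b • φ y := by
    rw [hL, hL, hL, map_add, hreal, hreal, smul_add, smul_add]
    have h0 : a₀ = a • a₀ + b • a₀ := by rw [← add_smul, hab, one_smul]
    nth_rewrite 1 [h0]
    abel
  rw [this]
  exact hΩ hx hy ha hb hab

section Local

variable {d n k : ℕ} {p : (Fin n → ℂ) → ℝ} {K : (Fin n → ℂ) → (Fin n → ℂ) → ℂ}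

/-- the restrictions of `p` to the images of affine maps have rank at most `k` -/
def AffRep (d k : ℕ) (p : (Fin n → ℂ) → ℝ) : Prop :=
  ∀ φ : (Fin d → ℂ) → Fin n → ℂ, IsAff φ → ∃ (ε : Fin k → ℝ) (g : Fin k → (Fin d → ℂ) → ℂ),
    (∀ j, Differentiable ℂ (g j)) ∧ ∀ s, p (φ s) = ∑ j, ε j * Complex.normSq (g j s)

theorem half_mem {Ω : Set (Fin n → ℂ)} (hΩ : Convex ℝ Ω) {z w : Fin n → ℂ} (hz : z ∈ Ω)
    (hw : w ∈ Ω) : (1 / 2 : ℂ) • (z + w) ∈ Ω := by
  have h2 : (1 / 2 : ℂ) • (z + w) = (1 / 2 : ℝ) • z + (1 / 2 : ℝ) • w := by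
    ext i
    simp only [Pi.smul_apply, Pi.add_apply, smul_eq_mul, Complex.real_smul]
    push_cast
    ring
  rw [h2]
  exact hΩ hz hw (by norm_num) (by norm_num) (by norm_num)

theorem I_point (z w : Fin n → ℂ) :
    (1 / 2 : ℂ) • (z + w) + Complex.I • ((-Complex.I / 2 : ℂ) • (z - w)) = z ∧
    (1 / 2 : ℂ) • (z + w) + (star Complex.I) • ((-Complex.I / 2 : ℂ) • (z - w)) = w := by
  have hI : star Complex.I = -Complex.I := Complex.conj_I
  have h2 := Complex.I_mul_I
  constructor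
  · ext i
    simp only [Pi.smul_apply, Pi.add_apply, Pi.sub_apply, smul_eq_mul]
    linear_combination (-(z i - w i) / 2) * h2
  · ext i
    rw [hI]
    simp only [Pi.smul_apply, Pi.add_apply, Pi.sub_apply, smul_eq_mul]
    linear_combination ((z i - w i) / 2) * h2

theorem rank_pair (hp : AffRep d k p) (hK : IsKer p K) {Ω : Set (Fin n → ℂ)} (ho : IsOpen Ω)
    (hc : Convex ℝ Ω) (hS : SesAn K Ω) {S : Set (Fin d → ℂ)} {φ ψ : (Fin d → ℂ) → Fin n → ℂ}
    (hφ : IsAff φ) (hψ : IsAff ψ) (hφS : ∀ s ∈ S, φ s ∈ Ω) (hψS : ∀ s ∈ S, ψ s ∈ Ω) :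
    MinorsVanish (fun (s : S) (σ : S) => K (φ s) (ψ σ)) k := by
  intro s σ
  let U : (Fin d → ℂ) → Fin n → ℂ := fun u => (1 / 2 : ℂ) • (φ u + ψ u)
  let W : (Fin d → ℂ) → Fin n → ℂ := fun u => (-Complex.I / 2 : ℂ) • (φ u - ψ u)
  let D : Set ℂ := {c | (∀ i, U (s i) + c • W (s i) ∈ Ω) ∧ ∀ j, U (σ j) + (star c) • W (σ j) ∈ Ω}
  let F : ℂ → ℂ := fun c =>
    (Matrix.of fun i j => K (U (s i) + c • W (s i)) (U (σ j) + (star c) • W (σ j))).det
  have hDo : IsOpen D := by
    have e : D = (⋂ i, {c : ℂ | U (s i) + c • W (s i) ∈ Ω}) ∩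
        ⋂ j, {c : ℂ | U (σ j) + (star c) • W (σ j) ∈ Ω} := by
      ext c
      simp only [D, Set.mem_ofPred_eq, Set.mem_inter_iff, Set.mem_iInter]
    rw [e]
    apply IsOpen.inter
    · exact isOpen_iInter_of_finite fun i => ho.preimage (by fun_prop)
    · exact isOpen_iInter_of_finite fun j => ho.preimage (by fun_prop)
  have hDc : Convex ℝ D := by
    have e : D = (⋂ i, {c : ℂ | U (s i) + c • W (s i) ∈ Ω}) ∩
        ⋂ j, {c : ℂ | U (σ j) + (star c) • W (σ j) ∈ Ω} := by
      ext c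
      simp only [D, Set.mem_ofPred_eq, Set.mem_inter_iff, Set.mem_iInter]
    rw [e]
    exact (convex_iInter fun i => convex_line hc _ _).inter
      (convex_iInter fun j => convex_line_star hc _ _)
  have h0D : (0 : ℂ) ∈ D := by
    refine ⟨fun i => ?_, fun j => ?_⟩
    · rw [zero_smul, add_zero]
      exact half_mem hc (hφS _ (s i).2) (hψS _ (s i).2)
    · rw [star_zero, zero_smul, add_zero]
      exact half_mem hc (hφS _ (σ j).2) (hψS _ (σ j).2)
  have hID : Complex.I ∈ D := by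
    refine ⟨fun i => ?_, fun j => ?_⟩
    · rw [(I_point _ _).1]; exact hφS _ (s i).2
    · rw [(I_point _ _).2]; exact hψS _ (σ j).2
  have hF : AnalyticOnNhd ℂ F D := by
    intro c hcD
    apply analyticAt_det
    intro i j
    exact hS.analytic_twoLines _ _ _ _ (hcD.1 i) (hcD.2 j)
  have hreal : ∀ t : ℝ, (t : ℂ) ∈ D → F t = 0 := by
    intro t ht
    have hst : star (t : ℂ) = t := Complex.conj_ofReal t
    let χ : (Fin d → ℂ) → Fin n → ℂ := fun u => U u + (t : ℂ) • W u
    have hχ : IsAff χ := by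
      obtain ⟨a, L, hL⟩ := hφ
      obtain ⟨b, L', hL'⟩ := hψ
      refine ⟨(1 / 2 : ℂ) • (a + b) + (t : ℂ) • ((-Complex.I / 2 : ℂ) • (a - b)),
        (1 / 2 : ℂ) • (L + L') + (t : ℂ) • ((-Complex.I / 2 : ℂ) • (L - L')), fun u => ?_⟩
      simp only [χ, U, W, hL, hL', LinearMap.add_apply, LinearMap.smul_apply, LinearMap.sub_apply]
      module
    obtain ⟨ε, g, hg, hgp⟩ := hp χ hχ
    have h1 : ∀ u ∈ χ ⁻¹' Ω, ∀ v ∈ χ ⁻¹' Ω, K (χ u) (χ v) = gram ε g u v := by
      intro u hu v hv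
      refine (hS.comp hχ.differentiable).eq_of_diag ((gram_sesan ε hg).mono (subset_univ _))
        (ho.preimage hχ.differentiable.continuous) (hχ.convex_preimage hc) (fun z _ => ?_) hu hv
      rw [hK.diag, gram_diag, hgp]
    have h2 := minorsVanish_of_factor (X := χ ⁻¹' Ω) (W := χ ⁻¹' Ω) (ι := Fin k) (N := k)
      (P := fun u v => K (χ u) (χ v)) (by rw [Fintype.card_fin]) (fun l u => (ε l : ℂ) * g l u)
      (fun l v => star (g l v)) (fun u v => h1 u.1 u.2 v.1 v.2)
    have h3 := h2 (fun i => ⟨s i, ht.1 i⟩) (fun j => ⟨σ j, by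
      have := ht.2 j
      rw [hst] at this
      exact this⟩)
    show (Matrix.of fun i j => K (U (s i) + (t : ℂ) • W (s i))
      (U (σ j) + (star (t : ℂ)) • W (σ j))).det = 0
    rw [hst]
    exact h3
  have h4 := real_points hDo hDc h0D hID hF hreal
  have h5 : F Complex.I = (Matrix.of fun i j => K (φ (s i)) (ψ (σ j))).det := by
    show (Matrix.of fun i j => K (U (s i) + Complex.I • W (s i))
      (U (σ j) + (star Complex.I) • W (σ j))).det = _
    congr 1
    ext i j
    simp only [Matrix.of_apply]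
    rw [(I_point (φ (s i)) (ψ (s i))).1, (I_point (φ (σ j)) (ψ (σ j))).2]
  rw [h5] at h4
  exact h4

end Local

section Slices

variable {m k : ℕ} {p : (Fin (m + 2) → ℂ) → ℝ} {K : (Fin (m + 2) → ℂ) → (Fin (m + 2) → ℂ) → ℂ}

theorem isAff_A (t : ℂ) : IsAff (fun s : Fin (m + 1) → ℂ => (Fin.cons t s : Fin (m + 2) → ℂ)) := by
  refine ⟨Fin.cons t 0, { toFun := fun s => Fin.cons 0 s, map_add' := ?_, map_smul' := ?_ },
    fun s => ?_⟩
  · intro x y
    ext i
    refine Fin.cases ?_ (fun i => ?_) i <;> simp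
  · intro c x
    ext i
    refine Fin.cases ?_ (fun i => ?_) i <;> simp
  · ext i
    refine Fin.cases ?_ (fun i => ?_) i <;> simp

theorem isAff_B (a : Fin (m + 1) → ℂ) :
    IsAff (fun s : Fin (m + 1) → ℂ => (Fin.cons (s 0) a : Fin (m + 2) → ℂ)) := by
  refine ⟨Fin.cons 0 a, { toFun := fun s => Fin.cons (s 0) 0, map_add' := ?_, map_smul' := ?_ },
    fun s => ?_⟩
  · intro x y
    ext i
    refine Fin.cases ?_ (fun i => ?_) i <;> simp
  · intro c x
    ext i
    refine Fin.cases ?_ (fun i => ?_) i <;> simp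
  · ext i
    refine Fin.cases ?_ (fun i => ?_) i <;> simp

/-- **The local rank is at most `k⁴`.** -/
theorem local_rank (hp : AffRep (m + 1) k p) (hK : IsKer p K) {ρ : ℝ} (hρ : 0 < ρ)
    (hS : SesAn K (ball 0 ρ)) :
    MinorsVanish (fun (z : ball (0 : Fin (m + 2) → ℂ) ρ) (w : ball (0 : Fin (m + 2) → ℂ) ρ) =>
      K z.1 w.1) ((k * k) * (k * k)) := by
  have hconv : Convex ℝ (ball (0 : Fin (m + 2) → ℂ) ρ) := convex_ball _ _
  have hA' : ∀ t ∈ ball (0 : ℂ) ρ, ∀ s ∈ ball (0 : Fin (m + 1) → ℂ) ρ,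
      (Fin.cons t s : Fin (m + 2) → ℂ) ∈ ball (0 : Fin (m + 2) → ℂ) ρ := fun t ht s hs =>
    (cons_mem_ball hρ).mpr ⟨ht, hs⟩
  have hs0 : ∀ s ∈ ball (0 : Fin (m + 1) → ℂ) ρ, s 0 ∈ ball (0 : ℂ) ρ := by
    intro s hs
    rw [mem_ball, dist_zero_right] at hs ⊢
    exact (norm_le_pi_norm s 0).trans_lt hs
  have hB' : ∀ a ∈ ball (0 : Fin (m + 1) → ℂ) ρ, ∀ s ∈ ball (0 : Fin (m + 1) → ℂ) ρ,
      (Fin.cons (s 0) a : Fin (m + 2) → ℂ) ∈ ball (0 : Fin (m + 2) → ℂ) ρ := fun a ha s hs =>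
    (cons_mem_ball hρ).mpr ⟨hs0 s hs, ha⟩
  -- a constant function of a point of the disc
  let κ : ball (0 : ℂ) ρ → ball (0 : Fin (m + 1) → ℂ) ρ := fun t => ⟨fun _ => t.1, by
    rw [mem_ball, dist_zero_right, pi_norm_lt_iff hρ]
    intro _
    have := t.2
    rwa [mem_ball, dist_zero_right] at this⟩
  -- first step: the second variable in the image of an affine map
  have first : ∀ ψ : (Fin (m + 1) → ℂ) → Fin (m + 2) → ℂ, IsAff ψ →
      (∀ s ∈ ball (0 : Fin (m + 1) → ℂ) ρ, ψ s ∈ ball (0 : Fin (m + 2) → ℂ) ρ) →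
      MinorsVanish (fun (z : ball (0 : Fin (m + 2) → ℂ) ρ) (σ : ball (0 : Fin (m + 1) → ℂ) ρ) =>
        K z.1 (ψ σ)) (k * k) := by
    intro ψ hψ hψB
    apply dimension_lemma hρ (P := fun z (σ : ball (0 : Fin (m + 1) → ℂ) ρ) => K z (ψ σ))
    · intro σ
      exact hS.analytic_left (hψB σ.1 σ.2)
    · intro t
      exact rank_pair hp hK isOpen_ball hconv hS (isAff_A t.1) hψ (hA' t.1 t.2) hψB
    · intro a
      have h1 := rank_pair hp hK isOpen_ball hconv hS (isAff_B a.1) hψ (hB' a.1 a.2) hψB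
      exact h1.comp κ id
  -- second step
  apply dimension_lemma hρ (P := fun z (w : ball (0 : Fin (m + 2) → ℂ) ρ) => K z w.1)
  · intro w
    exact hS.analytic_left w.2
  · intro t
    have h1 := (first _ (isAff_A t.1) (hA' t.1 t.2)).swap.conj
    simp only [hK.herm] at h1
    exact h1
  · intro a
    have h1 := (first _ (isAff_B a.1) (hB' a.1 a.2)).swap.conj
    simp only [hK.herm] at h1
    exact h1.comp κ id

end Slices

end Pool.Agent.X192.HR
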