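import Mathlib
import Pool.Agent.X192.HR.A5

/-!
# Globalization
-/

set_option autoImplicit false

open Set Metric Filter Topology

namespace Pool.Agent.X192.HR

variable {n : ℕ} {p : (Fin n → ℂ) → ℝ} {K : (Fin n → ℂ) → (Fin n → ℂ) → ℂ}

/-- continuation of `K(·, w)` along the lines through `w` -/
theorem IsKer.line_ext (hK : IsKer p K) {Ω : Set (Fin n → ℂ)} (ho : IsOpen Ω) (hc : Convex ℝ Ω)
    {f : (Fin n → ℂ) → ℂ} (hf : AnalyticOnNhd ℂ f Ω) {z w : Fin n → ℂ} (hz : z ∈ Ω) {ζ₀ : ℂ}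
    (h₀ : w + ζ₀ • (z - w) ∈ Ω) (h : ∀ᶠ y in 𝓝 (w + ζ₀ • (z - w)), K y w = f y) :
    K z w = f z := by
  let D : Set ℂ := {ζ | w + ζ • (z - w) ∈ Ω}
  have hline : Continuous fun ζ : ℂ => w + ζ • (z - w) := by fun_prop
  have h1 : AnalyticOnNhd ℂ (fun ζ : ℂ => K (w + ζ • (z - w)) w) D := fun ζ _ =>
    analytic_of_differentiable (hK.line w (z - w)) ζ trivial
  have h2 : AnalyticOnNhd ℂ (fun ζ : ℂ => f (w + ζ • (z - w))) D := by
    intro ζ hζ
    have h3 : AnalyticAt ℂ (fun ζ : ℂ => w + ζ • (z - w)) ζ :=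
      analyticAt_const.add (analyticAt_id.smul analyticAt_const)
    exact AnalyticAt.comp (g := f) (f := fun ζ : ℂ => w + ζ • (z - w)) (hf _ hζ) h3
  have h3 : (fun ζ : ℂ => K (w + ζ • (z - w)) w) =ᶠ[𝓝 ζ₀] fun ζ : ℂ => f (w + ζ • (z - w)) :=
    hline.continuousAt.eventually h
  have h4 := h1.eqOn_of_preconnected_of_eventuallyEq h2
    (convex_line hc w (z - w)).isPreconnected h₀ h3
  have h5 : (1 : ℂ) ∈ D := by
    show w + (1 : ℂ) • (z - w) ∈ Ω
    rw [one_smul, add_sub_cancel]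
    exact hz
  have h6 := h4 h5
  simp only [one_smul, add_sub_cancel] at h6
  exact h6

theorem analytic_star_star {Ω : Set (Fin n → ℂ)} (ho : IsOpen Ω) {f : (Fin n → ℂ) → ℂ}
    (hf : AnalyticOnNhd ℂ f Ω) : AnalyticOnNhd ℂ (fun z => star (f (star z))) {z | star z ∈ Ω} := by
  apply Pool.Agent.Y785.MV.Osg.analytic (ho.preimage continuous_star)
  intro z hz
  have h := (hf (star z) hz).differentiableAt.star_star
  rw [star_star] at h
  exact h.differentiableWithinAt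

/-- products `a(z) conj (b(w))` are holomorphic-antiholomorphic -/
theorem sesan_mul {Ω : Set (Fin n → ℂ)} (ho : IsOpen Ω) {a b : (Fin n → ℂ) → ℂ}
    (ha : AnalyticOnNhd ℂ a Ω) (hb : AnalyticOnNhd ℂ b Ω) :
    SesAn (fun z w => a z * star (b w)) Ω := by
  intro v hv
  have h1 : AnalyticAt ℂ (fun v : (Fin n → ℂ) × (Fin n → ℂ) => a v.1) v :=
    AnalyticAt.comp (g := a) (f := Prod.fst) (ha _ hv.1) analyticAt_fst
  have h2 : AnalyticAt ℂ (fun v : (Fin n → ℂ) × (Fin n → ℂ) => star (b (star v.2))) v :=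
    AnalyticAt.comp (g := fun z => star (b (star z))) (f := Prod.snd)
      (analytic_star_star ho hb _ hv.2) analyticAt_snd
  exact h1.mul h2

theorem SesAn.sum {ι : Type*} (s : Finset ι) {F : ι → (Fin n → ℂ) → (Fin n → ℂ) → ℂ}
    {Ω : Set (Fin n → ℂ)} (h : ∀ i ∈ s, SesAn (F i) Ω) : SesAn (fun z w => ∑ i ∈ s, F i z w) Ω :=
  fun v hv => Finset.analyticAt_fun_sum s fun i hi => h i hi v hv

theorem real_analytic_star {Ω : Set (Fin n → ℂ)} {f : (Fin n → ℂ) → ℂ}
    (hf : AnalyticOnNhd ℂ f Ω) : AnalyticOnNhd ℝ (fun z => star (f z)) Ω := by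
  intro z hz
  have h1 : AnalyticAt ℝ f z := (hf z hz).restrictScalars
  exact (Complex.conjCLE.toContinuousLinearMap.analyticAt (f z)).comp h1

/-- the data of a local finite rank formula -/
structure LocalRank (K : (Fin n → ℂ) → (Fin n → ℂ) → ℂ) (r₀ : ℝ) (r : ℕ) where
  x : Fin r → Fin n → ℂ
  w : Fin r → Fin n → ℂ
  hx : ∀ i, x i ∈ ball (0 : Fin n → ℂ) r₀
  hw : ∀ i, w i ∈ ball (0 : Fin n → ℂ) r₀
  Q : Matrix (Fin r) (Fin r) ℂ
  hM : (Matrix.of fun i j => K (x i) (w j)).det ≠ 0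
  hQ : Q.det ≠ 0
  formula : ∀ z ∈ ball (0 : Fin n → ℂ) r₀, ∀ y ∈ ball (0 : Fin n → ℂ) r₀,
    K z y = ∑ j, K z (w j) * ∑ i, Q j i * K (x i) y

theorem exists_localRank {r₀ : ℝ} {N : ℕ}
    (h : MinorsVanish (fun (z : ball (0 : Fin n → ℂ) r₀) (y : ball (0 : Fin n → ℂ) r₀) =>
      K z.1 y.1) N) : ∃ r ≤ N, Nonempty (LocalRank K r₀ r) := by
  obtain ⟨r, hr, ⟨-, x, w, hdet⟩, hv⟩ := exists_max_minor (Y := Unit)
    (fun _ => fun (z : ball (0 : Fin n → ℂ) r₀) (y : ball (0 : Fin n → ℂ) r₀) => K z.1 y.1)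
    fun _ => h
  refine ⟨r, hr, ⟨⟨fun i => (x i).1, fun i => (w i).1, fun i => (x i).2, fun i => (w i).2,
    (Matrix.of fun i j => K (x i).1 (w j).1)⁻¹, hdet, ?_, ?_⟩⟩⟩
  · rw [Matrix.det_nonsing_inv]
    intro h0
    rw [Ring.inverse_eq_inv', inv_eq_zero] at h0
    exact hdet h0
  · intro z hz y hy
    exact bordered (P := fun (z : ball (0 : Fin n → ℂ) r₀) (y : ball (0 : Fin n → ℂ) r₀) =>
      K z.1 y.1) hdet (hv ()) ⟨z, hz⟩ ⟨y, hy⟩

section Global

variable {r₀ : ℝ} {r : ℕ}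

/-- (F1) -/
theorem formula_left (hK : IsKer p K) (D : LocalRank K r₀ r) {R : ℝ} (hR : r₀ ≤ R)
    (hA : ∀ j, AnalyticOnNhd ℂ (fun z => K z (D.w j)) (ball 0 R)) {z y : Fin n → ℂ}
    (hz : z ∈ ball (0 : Fin n → ℂ) R) (hy : y ∈ ball (0 : Fin n → ℂ) r₀) :
    K z y = ∑ j, K z (D.w j) * ∑ i, D.Q j i * K (D.x i) y := by
  have hf : AnalyticOnNhd ℂ (fun z => ∑ j, K z (D.w j) * ∑ i, D.Q j i * K (D.x i) y)
      (ball 0 R) := fun z hz =>
    Finset.analyticAt_fun_sum _ fun j _ => (hA j z hz).mul analyticAt_const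
  have hyR : y ∈ ball (0 : Fin n → ℂ) R := ball_subset_ball hR hy
  refine hK.line_ext isOpen_ball (convex_ball _ _) hf hz (ζ₀ := 0) ?_ ?_
  · rw [zero_smul, add_zero]; exact hyR
  · rw [zero_smul, add_zero]
    filter_upwards [isOpen_ball.mem_nhds hy] with u hu
    exact D.formula u hu y hy

theorem analytic_x (hK : IsKer p K) (D : LocalRank K r₀ r) {R : ℝ} (hR : r₀ ≤ R)
    (hA : ∀ j, AnalyticOnNhd ℂ (fun z => K z (D.w j)) (ball 0 R)) (i : Fin r) :
    AnalyticOnNhd ℂ (fun z => K z (D.x i)) (ball 0 R) := by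
  intro z hz
  have hf : AnalyticAt ℂ (fun z => ∑ j, K z (D.w j) * ∑ i', D.Q j i' * K (D.x i') (D.x i)) z :=
    Finset.analyticAt_fun_sum _ fun j _ => (hA j z hz).mul analyticAt_const
  refine hf.congr ?_
  filter_upwards [isOpen_ball.mem_nhds hz] with u hu
  exact (formula_left hK D hR hA hu (D.hx i)).symm

/-- (F2), on the diagonal -/
theorem formula_diag (hp : AnalyticOnNhd ℝ p univ) (hK : IsKer p K) (hr₀ : 0 < r₀)
    (D : LocalRank K r₀ r) {R : ℝ} (hR : r₀ ≤ R)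
    (hA : ∀ j, AnalyticOnNhd ℂ (fun z => K z (D.w j)) (ball 0 R)) {z : Fin n → ℂ}
    (hz : z ∈ ball (0 : Fin n → ℂ) R) :
    (p z : ℂ) = ∑ j, K z (D.w j) * ∑ i, D.Q j i * star (K z (D.x i)) := by
  have h1 : AnalyticOnNhd ℝ (fun z : Fin n → ℂ => (p z : ℂ)) (ball 0 R) := by
    intro z _
    exact (Complex.ofRealCLM.analyticAt (p z)).comp (hp z trivial)
  have h2 : AnalyticOnNhd ℝ (fun z : Fin n → ℂ =>
      ∑ j, K z (D.w j) * ∑ i, D.Q j i * star (K z (D.x i))) (ball 0 R) := by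
    intro z hz
    refine Finset.analyticAt_fun_sum _ fun j _ => ?_
    refine (hA j z hz).restrictScalars.mul ?_
    refine Finset.analyticAt_fun_sum _ fun i _ => ?_
    exact analyticAt_const.mul (real_analytic_star (analytic_x hK D hR hA i) z hz)
  have h3 : (fun z : Fin n → ℂ => (p z : ℂ)) =ᶠ[𝓝 0] (fun z : Fin n → ℂ =>
      ∑ j, K z (D.w j) * ∑ i, D.Q j i * star (K z (D.x i))) := by
    filter_upwards [isOpen_ball.mem_nhds (mem_ball_self hr₀)] with u hu
    rw [← hK.diag, D.formula u hu u hu]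
    simp only [hK.herm]
  exact h1.eqOn_of_preconnected_of_eventuallyEq h2 (convex_ball _ _).isPreconnected
    (mem_ball_self (hr₀.trans_le hR)) h3 hz

/-- (F2) -/
theorem formula_both (hp : AnalyticOnNhd ℝ p univ) (hK : IsKer p K) (hr₀ : 0 < r₀)
    (D : LocalRank K r₀ r) {R : ℝ} (hR : r₀ ≤ R)
    (hA : ∀ j, AnalyticOnNhd ℂ (fun z => K z (D.w j)) (ball 0 R)) {z y : Fin n → ℂ}
    (hz : z ∈ ball (0 : Fin n → ℂ) R) (hy : y ∈ ball (0 : Fin n → ℂ) R) :
    K z y = ∑ j, K z (D.w j) * ∑ i, D.Q j i * star (K y (D.x i)) := by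
  have hS : SesAn (fun z y => ∑ j, K z (D.w j) * ∑ i, D.Q j i * star (K y (D.x i)))
      (ball (0 : Fin n → ℂ) R) := by
    have h1 : (fun z y => ∑ j, K z (D.w j) * ∑ i, D.Q j i * star (K y (D.x i))) =
        fun z y => ∑ j, ∑ i, (D.Q j i * K z (D.w j)) * star (K y (D.x i)) := by
      funext z y
      refine Finset.sum_congr rfl fun j _ => ?_
      rw [Finset.mul_sum]
      exact Finset.sum_congr rfl fun i _ => by ring
    rw [h1]
    refine SesAn.sum _ fun j _ => SesAn.sum _ fun i _ => ?_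
    refine sesan_mul isOpen_ball ?_ (analytic_x hK D hR hA i)
    intro z hz
    exact analyticAt_const.mul (hA j z hz)
  exact hK.eq_of_sesan hS isOpen_ball (convex_ball _ _)
    (fun z hz => (formula_diag hp hK hr₀ D hR hA hz).symm) hz hy

/-- (F3): independence of the functions `K(·, x_i)` on open sets -/
theorem exists_independent (hK : IsKer p K) (hr₀ : 0 < r₀)
    (D : LocalRank K r₀ r) {R : ℝ} (hR : r₀ ≤ R)
    (hA : ∀ j, AnalyticOnNhd ℂ (fun z => K z (D.w j)) (ball 0 R)) {O : Set (Fin n → ℂ)}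
    (hO : IsOpen O) (hOR : O ⊆ ball 0 R) (hne : O.Nonempty) :
    ∃ y : Fin r → Fin n → ℂ, (∀ l, y l ∈ O) ∧ (Matrix.of fun i l => K (y l) (D.x i)).det ≠ 0 := by
  by_contra hcon
  push Not at hcon
  obtain ⟨y₀, hy₀⟩ := hne
  let Ω : Set (Fin r → Fin n → ℂ) := Set.pi univ fun _ => ball (0 : Fin n → ℂ) R
  let F : (Fin r → Fin n → ℂ) → ℂ := fun y => (Matrix.of fun i l => K (y l) (D.x i)).det
  have hF : AnalyticOnNhd ℂ F Ω := by
    intro y hy
    apply analyticAt_det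
    intro i l
    have h1 : AnalyticAt ℂ (fun y : Fin r → Fin n → ℂ => y l) y :=
      (ContinuousLinearMap.proj (R := ℂ) (φ := fun _ : Fin r => Fin n → ℂ) l).analyticAt y
    exact AnalyticAt.comp (g := fun z => K z (D.x i)) (f := fun y : Fin r → Fin n → ℂ => y l)
      (analytic_x hK D hR hA i _ (hy l trivial)) h1
  have hΩ : IsPreconnected Ω := (convex_pi fun _ _ => convex_ball _ _).isPreconnected
  have h0 : F =ᶠ[𝓝 fun _ => y₀] 0 := by
    have h1 : (Set.pi univ fun _ : Fin r => O) ∈ 𝓝 (fun _ : Fin r => y₀) :=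
      (isOpen_set_pi finite_univ fun _ _ => hO).mem_nhds fun _ _ => hy₀
    filter_upwards [h1] with y hy
    exact hcon y fun l => hy l trivial
  have h1 := hF.eqOn_zero_of_preconnected_of_eventuallyEq_zero hΩ (z₀ := fun _ => y₀)
    (fun _ _ => hOR hy₀) h0
  have h2 : F D.w = 0 := h1 fun j _ => ball_subset_ball hR (D.hw j)
  have h3 : F D.w = star (Matrix.of fun i j => K (D.x i) (D.w j)).det := by
    show (Matrix.of fun i l => K (D.w l) (D.x i)).det = (starRingEnd ℂ) _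
    rw [RingHom.map_det]
    congr 1
    ext i j
    exact (hK.herm _ _).symm
  rw [h3, star_eq_zero] at h2
  exact D.hM h2

/-- (F4): the functions `K(·, w_j)` are combinations of the functions `K(·, y_l)` -/
theorem exists_combination (hp : AnalyticOnNhd ℝ p univ) (hK : IsKer p K) (hr₀ : 0 < r₀)
    (D : LocalRank K r₀ r) {R : ℝ} (hR : r₀ ≤ R)
    (hA : ∀ j, AnalyticOnNhd ℂ (fun z => K z (D.w j)) (ball 0 R)) {y : Fin r → Fin n → ℂ}
    (hy : ∀ l, y l ∈ ball (0 : Fin n → ℂ) R)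
    (hdet : (Matrix.of fun i l => K (y l) (D.x i)).det ≠ 0) :
    ∃ C : Matrix (Fin r) (Fin r) ℂ, ∀ z ∈ ball (0 : Fin n → ℂ) R, ∀ j,
      K z (D.w j) = ∑ l, K z (y l) * C l j := by
  let V : Matrix (Fin r) (Fin r) ℂ := Matrix.of fun i l => star (K (y l) (D.x i))
  let B : Matrix (Fin r) (Fin r) ℂ := D.Q * V
  have hV : V.det ≠ 0 := by
    have h1 : V.det = star (Matrix.of fun i l => K (y l) (D.x i)).det := by
      show _ = (starRingEnd ℂ) _
      rw [RingHom.map_det]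
      rfl
    rw [h1]
    exact star_ne_zero.mpr hdet
  have hB : IsUnit B.det := by
    rw [Matrix.det_mul]
    exact (isUnit_iff_ne_zero.mpr D.hQ).mul (isUnit_iff_ne_zero.mpr hV)
  refine ⟨B⁻¹, fun z hz j => ?_⟩
  have h1 : ∀ l, K z (y l) = ∑ j', K z (D.w j') * B j' l := by
    intro l
    rw [formula_both hp hK hr₀ D hR hA hz (hy l)]
    rfl
  have h2 : B * B⁻¹ = 1 := Matrix.mul_nonsing_inv _ hB
  have h3 : ∑ l, K z (y l) * B⁻¹ l j = ∑ j', K z (D.w j') * (B * B⁻¹) j' j := by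
    simp only [h1, Finset.sum_mul, Matrix.mul_apply, Finset.mul_sum]
    rw [Finset.sum_comm]
    exact Finset.sum_congr rfl fun j' _ => Finset.sum_congr rfl fun l _ => by ring
  rw [h3, h2]
  simp [Matrix.one_apply]

/-- (F5): continuation to the points of the sphere -/
theorem analyticAt_boundary (hp : AnalyticOnNhd ℝ p univ) (hK : IsKer p K) (hr₀ : 0 < r₀)
    (D : LocalRank K r₀ r) {R : ℝ} (hR : r₀ ≤ R)
    (hA : ∀ j, AnalyticOnNhd ℂ (fun z => K z (D.w j)) (ball 0 R)) {x₀ : Fin n → ℂ}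
    (hx₀ : ‖x₀‖ ≤ R) (j : Fin r) : AnalyticAt ℂ (fun z => K z (D.w j)) x₀ := by
  have hR0 : 0 < R := hr₀.trans_le hR
  obtain ⟨r₁, hr₁, hS⟩ := hK.sesan_near (hp x₀ trivial)
  let O : Set (Fin n → ℂ) := ball 0 R ∩ ball x₀ r₁
  have hO : IsOpen O := isOpen_ball.inter isOpen_ball
  have hne : O.Nonempty := by
    have h1 : x₀ ∈ closure (ball (0 : Fin n → ℂ) R) := by
      rw [closure_ball _ hR0.ne', mem_closedBall, dist_zero_right]
      exact hx₀
    obtain ⟨y, hy, hy'⟩ := mem_closure_iff_nhds.mp h1 _ (ball_mem_nhds x₀ hr₁)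
    exact ⟨y, hy', hy⟩
  obtain ⟨y, hy, hdet⟩ := exists_independent hK hr₀ D hR hA hO inter_subset_left hne
  obtain ⟨C, hC⟩ := exists_combination hp hK hr₀ D hR hA (fun l => (hy l).1) hdet
  let f : (Fin n → ℂ) → ℂ := fun z => ∑ l, K z (y l) * C l j
  have hf : AnalyticOnNhd ℂ f (ball x₀ r₁) := fun z hz =>
    Finset.analyticAt_fun_sum _ fun l _ => (hS.analytic_left (hy l).2 z hz).mul analyticAt_const
  set w := D.w j with hwdef
  have hwR : ‖w‖ < R := by
    have := D.hw j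
    rw [mem_ball, dist_zero_right] at this
    exact this.trans_le hR
  -- the parameters
  set τ : ℝ := min (1 / 2) (r₁ / (4 * (2 * R + 1))) with hτ
  have hτ0 : 0 < τ := lt_min (by norm_num) (by positivity)
  have hτ1 : τ ≤ 1 / 2 := min_le_left _ _
  have hτ2 : τ * (2 * R + 1) ≤ r₁ / 4 := by
    have h1 : τ ≤ r₁ / (4 * (2 * R + 1)) := min_le_right _ _
    rw [le_div_iff₀ (by positivity)] at h1
    linarith
  set δ : ℝ := min (min (r₁ / 2) 1) (τ * (R - ‖w‖)) with hδ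
  have hδ0 : 0 < δ := by
    refine lt_min (lt_min (by positivity) one_pos) ?_
    exact mul_pos hτ0 (by linarith)
  have hδ1 : δ ≤ r₁ / 2 := (min_le_left _ _).trans (min_le_left _ _)
  have hδ2 : δ ≤ 1 := (min_le_left _ _).trans (min_le_right _ _)
  have hδ3 : δ ≤ τ * (R - ‖w‖) := min_le_right _ _
  have key : ∀ z ∈ ball x₀ δ, K z w = f z := by
    intro z hz
    rw [mem_ball, dist_eq_norm] at hz
    have hzn : ‖z‖ < R + δ := by
      calc ‖z‖ = ‖(z - x₀) + x₀‖ := by rw [sub_add_cancel]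
        _ ≤ ‖z - x₀‖ + ‖x₀‖ := norm_add_le _ _
        _ < R + δ := by linarith
    have hzr : z ∈ ball x₀ r₁ := by
      rw [mem_ball, dist_eq_norm]
      linarith
    -- the intermediate point
    set ζ₀ : ℂ := ((1 - τ : ℝ) : ℂ) with hζ₀
    have e1 : w + ζ₀ • (z - w) = ((τ : ℝ) : ℂ) • w + ((1 - τ : ℝ) : ℂ) • z := by
      rw [hζ₀]
      push_cast
      module
    have hn1 : ‖w + ζ₀ • (z - w)‖ < R := by
      rw [e1]
      refine (norm_add_le _ _).trans_lt ?_
      rw [norm_smul, norm_smul, Complex.norm_real, Complex.norm_real, Real.norm_of_nonneg hτ0.le,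
        Real.norm_of_nonneg (by linarith)]
      have h2 : (1 - τ) * ‖z‖ ≤ (1 - τ) * (R + δ) :=
        mul_le_mul_of_nonneg_left hzn.le (by linarith)
      nlinarith
    have hn2 : ‖w + ζ₀ • (z - w) - x₀‖ < r₁ := by
      have e2 : w + ζ₀ • (z - w) - x₀ = (z - x₀) + ((τ : ℝ) : ℂ) • (w - z) := by
        rw [hζ₀]
        push_cast
        module
      rw [e2]
      refine (norm_add_le _ _).trans_lt ?_
      rw [norm_smul, Complex.norm_real, Real.norm_of_nonneg hτ0.le]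
      have h3 : ‖w - z‖ ≤ 2 * R + 1 := by
        refine (norm_sub_le _ _).trans ?_
        linarith
      have h4 : τ * ‖w - z‖ ≤ τ * (2 * R + 1) := mul_le_mul_of_nonneg_left h3 hτ0.le
      linarith
    have hmem : w + ζ₀ • (z - w) ∈ O := by
      refine ⟨?_, ?_⟩
      · rw [mem_ball, dist_zero_right]; exact hn1
      · rw [mem_ball, dist_eq_norm]; exact hn2
    refine hK.line_ext isOpen_ball (convex_ball _ _) hf hzr (ζ₀ := ζ₀) hmem.2 ?_
    filter_upwards [hO.mem_nhds hmem] with u hu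
    exact hC u hu.1 j
  refine (hf x₀ (mem_ball_self hr₁)).congr ?_
  filter_upwards [ball_mem_nhds x₀ hδ0] with z hz
  exact (key z hz).symm

theorem entire (hp : AnalyticOnNhd ℝ p univ) (hK : IsKer p K) (hr₀ : 0 < r₀)
    (hS : SesAn K (ball (0 : Fin n → ℂ) r₀)) (D : LocalRank K r₀ r) (j : Fin r) :
    AnalyticOnNhd ℂ (fun z => K z (D.w j)) univ := by
  let S : Set (Fin n → ℂ) := {x | ∀ j, AnalyticAt ℂ (fun z => K z (D.w j)) x}
  have hSo : IsOpen S := by
    have : S = ⋂ j, {x | AnalyticAt ℂ (fun z => K z (D.w j)) x} := by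
      ext x
      simp only [S, Set.mem_ofPred_eq, Set.mem_iInter]
    rw [this]
    exact isOpen_iInter_of_finite fun j => isOpen_analyticAt ℂ _
  suffices hall : S = univ by
    intro x _
    have : x ∈ S := by rw [hall]; trivial
    exact this j
  by_contra hne
  have hne' : Sᶜ.Nonempty := by
    rw [Set.nonempty_compl]
    exact hne
  obtain ⟨x₁, hx₁, hmin⟩ := hSo.isClosed_compl.exists_infDist_eq_dist hne' 0
  have hball : ball (0 : Fin n → ℂ) ‖x₁‖ ⊆ S := by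
    intro y hy
    by_contra hyS
    have h1 : infDist (0 : Fin n → ℂ) Sᶜ ≤ dist 0 y := infDist_le_dist_of_mem hyS
    rw [hmin, dist_zero_left, dist_zero_left] at h1
    rw [mem_ball, dist_zero_right] at hy
    linarith
  have hr : r₀ ≤ ‖x₁‖ := by
    by_contra hlt
    push Not at hlt
    apply hx₁
    intro j
    exact hS.analytic_left (D.hw j) x₁ (by rw [mem_ball, dist_zero_right]; exact hlt)
  apply hx₁
  intro j
  exact analyticAt_boundary hp hK hr₀ D hr (fun j x hx => hball hx j) le_rfl j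

end Global

end Pool.Agent.X192.HR
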